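import Pool.Agent.W206.MS.Basic

/-! Finiteness and approximation lemmas. -/

namespace Pool.Agent.W206.MS

variable {K : Type*} [Field K]

theorem relIndex_ne_zero_of_fg (L A : Submodule ℤ K) (hL : L.FG) (n : ℤ) (hn : n ≠ 0)
    (h : ∀ x ∈ L, n • x ∈ A) : A.toAddSubgroup.relIndex L.toAddSubgroup ≠ 0 := by
  have : Module.Finite ℤ L := Module.Finite.iff_fg.2 hL
  have ht : Module.IsTorsion ℤ (L ⧸ (A.comap L.subtype)) := by
    intro x
    induction x using Submodule.Quotient.induction_on with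
    | H x =>
      refine ⟨⟨n, mem_nonZeroDivisors_of_ne_zero hn⟩, ?_⟩
      have h1 : n • x ∈ A.comap L.subtype := h x.1 x.2
      change n • (Submodule.Quotient.mk x : L ⧸ (A.comap L.subtype)) = 0
      rw [← Submodule.Quotient.mk_smul]
      exact (Submodule.Quotient.mk_eq_zero _).2 h1
  have : Finite (L ⧸ (A.comap L.subtype)) := Module.finite_of_fg_torsion _ ht
  have e : A.toAddSubgroup.relIndex L.toAddSubgroup = Nat.card (L ⧸ (A.comap L.subtype)) := rfl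
  rw [e]
  exact Nat.card_pos.ne'

theorem pow_idem {O : Subalgebra ℤ K} {b : Submodule ℤ K} (hb : ∀ x ∈ O, ∀ y ∈ b, x * y ∈ b)
    {x : K} (hx : x ∈ O) {i p : ℕ} (hp : 0 < p) (h : x ^ (i + p) - x ^ i ∈ b) :
    ∃ k, 0 < k ∧ x ^ (2 * k) - x ^ k ∈ b := by
  have key : ∀ q n, i ≤ n → x ^ (n + q * p) - x ^ n ∈ b := by
    intro q
    induction q with
    | zero => intro n _; simp
    | succ q ih =>
      intro n hn
      obtain ⟨c, hc⟩ := Nat.exists_eq_add_of_le (show i ≤ n + q * p by omega)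
      have e : x ^ (n + (q + 1) * p) - x ^ n =
          x ^ c * (x ^ (i + p) - x ^ i) + (x ^ (n + q * p) - x ^ n) := by
        have : n + (q + 1) * p = c + (i + p) := by rw [add_mul, one_mul]; omega
        rw [this, hc]
        ring
      rw [e]
      exact b.add_mem (hb _ (O.pow_mem hx c) _ h) (ih n hn)
  refine ⟨(i + 1) * p, by positivity, ?_⟩
  have := key (i + 1) ((i + 1) * p) (by nlinarith)
  rwa [← two_mul] at this

theorem exists_idem {O : Subalgebra ℤ K} {b : Submodule ℤ K} (hb : ∀ x ∈ O, ∀ y ∈ b, x * y ∈ b)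
    (hO : (OL O).FG) {n : ℤ} (hn : n ≠ 0) (hnb : (n : K) ∈ b) {x : K} (hx : x ∈ O) :
    ∃ k, 0 < k ∧ x ^ (2 * k) - x ^ k ∈ b := by
  have h1 := relIndex_ne_zero_of_fg (OL O) b hO n hn (fun x hx => by
    have := hb x hx _ hnb
    rwa [zsmul_eq_mul, mul_comm])
  have e : b.toAddSubgroup.relIndex (OL O).toAddSubgroup =
    Nat.card (OL O ⧸ (b.comap (OL O).subtype)) := rfl
  rw [e] at h1
  have : Finite (OL O ⧸ (b.comap (OL O).subtype)) := (Nat.card_ne_zero.1 h1).2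
  obtain ⟨i, j, hij, hq⟩ := Finite.exists_ne_map_eq_of_infinite
    (fun i : ℕ => (Submodule.Quotient.mk ⟨x ^ i, O.pow_mem hx i⟩ :
      (OL O) ⧸ (b.comap (OL O).subtype)))
  wlog hlt : i < j generalizing i j
  · exact this j i hij.symm hq.symm (lt_of_le_of_ne (not_lt.1 hlt) hij.symm)
  obtain ⟨p, hp⟩ := Nat.exists_eq_add_of_lt hlt
  refine pow_idem hb hx (i := i) (p := p + 1) (by omega) ?_
  have := (Submodule.Quotient.eq _).1 hq.symm
  rw [hp] at this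
  simpa [add_assoc] using this

theorem binom {O : Subalgebra ℤ K} {b : Submodule ℤ K} (hb : ∀ x ∈ O, ∀ y ∈ b, x * y ∈ b)
    {A z w : K} (hz : z ∈ O) (hw : w ∈ O) {k l : ℕ} (h1 : A * z ^ k ∈ b) (h2 : A * w ^ l ∈ b) :
    A * (z + w) ^ (k + l) ∈ b := by
  rw [add_pow, Finset.mul_sum]
  refine Submodule.sum_mem _ fun i hi => ?_
  by_cases h : k ≤ i
  · obtain ⟨c, rfl⟩ := Nat.exists_eq_add_of_le h
    have e : A * (z ^ (k + c) * w ^ (k + l - (k + c)) * ((k + l).choose (k + c) : K)) =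
      (z ^ c * w ^ (k + l - (k + c)) * ((k + l).choose (k + c) : K)) * (A * z ^ k) := by ring
    rw [e]
    refine hb _ ?_ _ h1
    exact O.mul_mem (O.mul_mem (O.pow_mem hz _) (O.pow_mem hw _)) (natCast_mem O _)
  · obtain ⟨c, hc⟩ := Nat.exists_eq_add_of_le (show l ≤ k + l - i by omega)
    rw [hc]
    have e : A * (z ^ i * w ^ (l + c) * ((k + l).choose i : K)) =
      (z ^ i * w ^ c * ((k + l).choose i : K)) * (A * w ^ l) := by ring
    rw [e]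
    refine hb _ ?_ _ h2
    exact O.mul_mem (O.mul_mem (O.pow_mem hz _) (O.pow_mem hw _)) (natCast_mem O _)

/-- Invertible ideals are locally principal. -/
theorem LP {O : Subalgebra ℤ K} {b : Submodule ℤ K} (hb : ∀ x ∈ O, ∀ y ∈ b, x * y ∈ b)
    (hfin : ∀ x ∈ O, ∃ k, 0 < k ∧ x ^ (2 * k) - x ^ k ∈ b) {a a' : Submodule ℤ K}
    (ha : OL O * a = a) (ha' : OL O * a' = a') (h : a * a' = OL O) :
    ∃ γ ∈ a, ∃ u ∈ a', 1 - γ * u ∈ b := by
  have hO : ∀ γ ∈ a, ∀ u ∈ a', γ * u ∈ O := fun γ hγ u hu => by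
    have := Submodule.mul_mem_mul hγ hu
    rw [h] at this; exact this
  rw [stable_iff] at ha ha'
  have key : ∀ z ∈ a * a', ∃ γ ∈ a, ∃ u ∈ a', (γ * u) ^ 2 - γ * u ∈ b ∧
      ∃ k, (1 - γ * u) * z ^ k ∈ b := by
    intro z hz
    induction hz using Submodule.mul_induction_on' with
    | mem_mul_mem x hx w hw =>
      obtain ⟨k, hk, hk'⟩ := hfin _ (hO x hx w hw)
      obtain ⟨k, rfl⟩ := Nat.exists_eq_succ_of_ne_zero hk.ne'
      refine ⟨x, hx, (x * w) ^ k * w, ha' _ (O.pow_mem (hO x hx w hw) k) _ hw, ?_, k + 1, ?_⟩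
      · have : (x * ((x * w) ^ k * w)) ^ 2 - x * ((x * w) ^ k * w) =
          (x * w) ^ (2 * k.succ) - (x * w) ^ k.succ := by
          rw [Nat.succ_eq_add_one]; ring
        rw [this]; exact hk'
      · have : (1 - x * ((x * w) ^ k * w)) * (x * w) ^ (k + 1) =
          -((x * w) ^ (2 * k.succ) - (x * w) ^ k.succ) := by
          rw [Nat.succ_eq_add_one]; ring
        rw [this]; exact b.neg_mem hk'
    | add z₁ hz₁ z₂ hz₂ ih₁ ih₂ =>
      obtain ⟨γ₁, hγ₁, u₁, hu₁, i₁, k₁, e₁⟩ := ih₁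
      obtain ⟨γ₂, hγ₂, u₂, hu₂, i₂, k₂, e₂⟩ := ih₂
      rw [h] at hz₁ hz₂
      have hz₁' : z₁ ∈ O := hz₁
      have hz₂' : z₂ ∈ O := hz₂
      have g1 := hO _ hγ₁ _ hu₁
      have g2 := hO _ hγ₂ _ hu₂
      have g12 := hO _ hγ₁ _ hu₂
      have g21 := hO _ hγ₂ _ hu₁
      have n1 : 1 - γ₁ * u₁ ∈ O := O.sub_mem O.one_mem g1
      have n2 : 1 - γ₂ * u₂ ∈ O := O.sub_mem O.one_mem g2
      set γ := (γ₁ * u₁) * γ₁ + (1 - γ₁ * u₁) * γ₂ with hγ
      set u := (γ₁ * u₁) * u₁ + (1 - γ₁ * u₁) * u₂ with hu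
      have hγm : γ ∈ a := a.add_mem (ha _ g1 _ hγ₁) (ha _ n1 _ hγ₂)
      have hum : u ∈ a' := a'.add_mem (ha' _ g1 _ hu₁) (ha' _ n1 _ hu₂)
      set c := γ₁ * u₁ + 1 + γ₂ * u₂ - γ₁ * u₂ - γ₂ * u₁ with hc
      have hcO : c ∈ O := O.sub_mem (O.sub_mem (O.add_mem (O.add_mem g1 O.one_mem) g2) g12) g21
      set δ := c * ((γ₁ * u₁) ^ 2 - γ₁ * u₁) with hδ
      have hδb : δ ∈ b := hb _ hcO _ i₁
      set g := γ₁ * u₁ + (1 - γ₁ * u₁) * (γ₂ * u₂) with hg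
      have hgO : g ∈ O := O.add_mem g1 (O.mul_mem n1 g2)
      have hδO : δ ∈ O := O.mul_mem hcO (O.sub_mem (O.pow_mem g1 2) g1)
      have e3 : γ * u = g + δ := by
        rw [hγ, hu, hg, hδ, hc]; ring
      refine ⟨γ, hγm, u, hum, ?_, k₁ + k₂, ?_⟩
      · rw [e3]
        have : (g + δ) ^ 2 - (g + δ) = (1 - γ₂ * u₂) * ((γ₁ * u₁) ^ 2 - γ₁ * u₁) +
          (1 - γ₁ * u₁) ^ 2 * ((γ₂ * u₂) ^ 2 - γ₂ * u₂) + (2 * g + δ - 1) * δ := by
          rw [hg]; ring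
        rw [this]
        refine b.add_mem (b.add_mem (hb _ n2 _ i₁) (hb _ (O.pow_mem n1 2) _ i₂)) (hb _ ?_ _ hδb)
        refine O.sub_mem (O.add_mem (O.mul_mem ?_ hgO) hδO) O.one_mem
        exact_mod_cast natCast_mem O 2
      · rw [e3]
        have : (1 - (g + δ)) * (z₁ + z₂) ^ (k₁ + k₂) =
          ((1 - γ₁ * u₁) * (1 - γ₂ * u₂)) * (z₁ + z₂) ^ (k₁ + k₂) +
            -((z₁ + z₂) ^ (k₁ + k₂) * δ) := by
          rw [hg]; ring
        rw [this]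
        refine b.add_mem (binom hb hz₁' hz₂' ?_ ?_)
          (b.neg_mem (hb _ (O.pow_mem (O.add_mem hz₁' hz₂') _) _ hδb))
        · have : (1 - γ₁ * u₁) * (1 - γ₂ * u₂) * z₁ ^ k₁ =
            (1 - γ₂ * u₂) * ((1 - γ₁ * u₁) * z₁ ^ k₁) := by ring
          rw [this]; exact hb _ n2 _ e₁
        · have : (1 - γ₁ * u₁) * (1 - γ₂ * u₂) * z₂ ^ k₂ =
            (1 - γ₁ * u₁) * ((1 - γ₂ * u₂) * z₂ ^ k₂) := by ring
          rw [this]; exact hb _ n1 _ e₂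
  obtain ⟨γ, hγ, u, hu, -, k, hk⟩ := key 1 (by rw [h]; exact O.one_mem)
  exact ⟨γ, hγ, u, hu, by simpa using hk⟩

/-- Approximation: a local generator modulo `b` which is congruent to `α₀` modulo `m a'` and
positive. -/
theorem GA {O : Subalgebra ℤ K} {m b : Submodule ℤ K} (hm : Md O m) (hbm : b ≤ m)
    (hb : ∀ x ∈ O, ∀ y ∈ b, x * y ∈ b)
    (hfin : ∀ x ∈ O, ∃ k, 0 < k ∧ x ^ (2 * k) - x ^ k ∈ b) {N : ℕ} (hN : 0 < N)
    (hNb : (N : K) ∈ b) (σ : K →+* ℝ)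
    {d a : Submodule ℤ K} (hd : OL O * d = d) (ha : OL O * a = a) (h : d * a = OL O)
    {α₀ t : K} (hα₀ : α₀ ∈ d) (hα₀' : α₀ ∈ O) (ht : t ∈ a) (h1 : 1 - α₀ * t ∈ m) :
    ∃ α ∈ d, 0 < σ α ∧ (∃ y ∈ a, 1 - α * y ∈ b) ∧ α - α₀ ∈ m * d := by
  obtain ⟨γ, hγ, u, hu, hγu⟩ := LP hb hfin hd ha h
  have hO : ∀ γ ∈ d, ∀ u ∈ a, γ * u ∈ O := fun γ hγ u hu => by
    have := Submodule.mul_mem_mul hγ hu
    rw [h] at this; exact this
  rw [stable_iff] at hd ha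
  have hz := hO _ hα₀ _ ht
  obtain ⟨k, hk, hk'⟩ := hfin _ hz
  obtain ⟨k, rfl⟩ := Nat.exists_eq_succ_of_ne_zero hk.ne'
  rw [Nat.succ_eq_add_one] at hk'
  set z := α₀ * t with hzdef
  set g := z ^ (k + 1) with hg
  have hgO : g ∈ O := O.pow_mem hz _
  have hgi : g ^ 2 - g ∈ b := by
    rw [hg, ← pow_mul, mul_comm]; exact hk'
  have hgm : 1 - g ∈ m := by
    have : ∀ n : ℕ, 1 - z ^ n ∈ m := by
      intro n
      induction n with
      | zero => simp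
      | succ n ih =>
        have : 1 - z ^ (n + 1) = z * (1 - z ^ n) + (1 - z) := by ring
        rw [this]
        exact m.add_mem (hm.mul _ hz _ ih) h1
    exact this _
  set α₁ := g * α₀ + (1 - g) * γ with hα₁
  set y := g * (z ^ k * t) + (1 - g) * u with hy
  have hn : 1 - g ∈ O := O.sub_mem O.one_mem hgO
  have hα₁d : α₁ ∈ d := d.add_mem (hd _ hgO _ hα₀) (hd _ hn _ hγ)
  have hya : y ∈ a := a.add_mem (ha _ hgO _ (ha _ (O.pow_mem hz _) _ ht)) (ha _ hn _ hu)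
  have h2 : 1 - α₁ * y ∈ b := by
    have : 1 - α₁ * y = (-(2 + g) + (α₀ * u + z ^ k * (γ * t))) * (g ^ 2 - g) +
        (1 - g) ^ 2 * (1 - γ * u) := by
      have e : g = z ^ k * (α₀ * t) := by rw [hg, pow_succ]
      have : α₁ * y = g ^ 2 * (z ^ k * (α₀ * t)) + (1 - g) ^ 2 * (γ * u) +
        g * (1 - g) * (α₀ * u + z ^ k * (γ * t)) := by rw [hα₁, hy]; ring
      rw [this, ← e]
      ring
    rw [this]
    refine b.add_mem (hb _ (O.add_mem (O.neg_mem (O.add_mem ?_ hgO))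
      (O.add_mem (hO _ hα₀ _ hu) (O.mul_mem (O.pow_mem hz _) (hO _ hγ _ ht)))) _ hgi)
      (hb _ (O.pow_mem hn 2) _ hγu)
    exact_mod_cast natCast_mem O 2
  have h3 : α₁ - α₀ ∈ m * d := by
    have : α₁ - α₀ = (1 - g) * (γ - α₀) := by rw [hα₁]; ring
    rw [this]
    exact Submodule.mul_mem_mul hgm (d.sub_mem hγ hα₀)
  have hα₀0 : α₀ ≠ 0 := by
    intro h0
    apply hm.one
    rw [hzdef, h0] at h1
    simpa using h1
  have hσ : 0 < (N : ℝ) * σ α₀ ^ 2 := by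
    have : σ α₀ ≠ 0 := by simpa using hα₀0
    positivity
  obtain ⟨j, hj⟩ := exists_nat_gt (-(σ α₁) / ((N : ℝ) * σ α₀ ^ 2))
  rw [div_lt_iff₀ hσ] at hj
  refine ⟨α₁ + ((j : K) * N * α₀) * α₀, ?_, ?_, ⟨y, hya, ?_⟩, ?_⟩
  · exact d.add_mem hα₁d (hd _ (O.mul_mem (O.mul_mem (natCast_mem O _) (natCast_mem O _)) hα₀')
      _ hα₀)
  · rw [map_add, map_mul, map_mul, map_mul, map_natCast, map_natCast]
    nlinarith
  · have : 1 - (α₁ + ((j : K) * N * α₀) * α₀) * y =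
      (1 - α₁ * y) + -((j : K) * α₀ * (α₀ * y) * N) := by ring
    rw [this]
    exact b.add_mem h2 (b.neg_mem (hb _ (O.mul_mem (O.mul_mem (natCast_mem O _) hα₀')
      (hO _ hα₀ _ hya)) _ hNb))
  · have : α₁ + ((j : K) * N * α₀) * α₀ - α₀ = (α₁ - α₀) + ((j : K) * α₀ * N) * α₀ := by ring
    rw [this]
    refine (m * d).add_mem h3 (Submodule.mul_mem_mul ?_ hα₀)
    exact hm.mul _ (O.mul_mem (natCast_mem O _) hα₀') _ (hbm hNb)

end Pool.Agent.W206.MS
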