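import Pool.Agent.W206.MS.Classes

/-! The Artin map of `O` modulo `m` from the Artin map of `O'` modulo `b`. -/

namespace Pool.Agent.W206.MS

variable {K : Type*} [Field K] {O O' : Subalgebra ℤ K} {m b : Submodule ℤ K} {σ : K →+* ℝ}

theorem sup_eq_of_mem (hm : Md O m) {x : Submodule ℤ K} (hx : OL O * x = x) (hle : x ≤ OL O)
    {e : K} (he : e ∈ x) (h1 : 1 - e ∈ m) : x ⊔ m = OL O := by
  apply le_antisymm
  · exact sup_le hle fun x hx => hm.le x hx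
  · intro y hy
    have : y = y * e + y * (1 - e) := by ring
    rw [this]
    exact Submodule.add_mem_sup (stable_iff.1 hx _ hy _ he) (hm.mul y hy _ h1)

theorem mem_of_sup_eq {x : Submodule ℤ K} (h : x ⊔ m = OL O) : ∃ e ∈ x, 1 - e ∈ m := by
  have : (1 : K) ∈ x ⊔ m := by rw [h]; exact one_mem_OL O
  obtain ⟨y, hy, z, hz, hyz⟩ := Submodule.mem_sup.1 this
  exact ⟨y, hy, by rw [← hyz]; simpa using hz⟩

theorem InJ.mul (hm : Md O m) {x y : Submodule ℤ K} (hx : InJ O m x) (hy : InJ O m y) :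
    InJ O m (x * y) := by
  obtain ⟨hx0, x₁, x₂, h1, h2, h3, h4, h5, h6⟩ := hx
  obtain ⟨hy0, y₁, y₂, k1, k2, k3, k4, k5, k6⟩ := hy
  obtain ⟨e1, he1, he1'⟩ := mem_of_sup_eq h4
  obtain ⟨e2, he2, he2'⟩ := mem_of_sup_eq h5
  obtain ⟨f1, hf1, hf1'⟩ := mem_of_sup_eq k4
  obtain ⟨f2, hf2, hf2'⟩ := mem_of_sup_eq k5
  have key : ∀ e f : K, e ∈ O → 1 - e ∈ m → 1 - f ∈ m → 1 - e * f ∈ m := by
    intro e f he h h'
    have : 1 - e * f = (1 - e) + e * (1 - f) := by ring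
    rw [this]; exact m.add_mem h (hm.mul _ he _ h')
  have hx1 : OL O * x₁ = x₁ := by rw [← h6]; exact stable_mul hx0.stable _
  refine ⟨hx0.mul hy0, x₁ * y₁, x₂ * y₂, ?_, ?_, h3.mul k3, ?_, ?_, ?_⟩
  · rw [Submodule.mul_le]; exact fun a ha c hc => O.mul_mem (h1 ha) (k1 hc)
  · rw [Submodule.mul_le]; exact fun a ha c hc => O.mul_mem (h2 ha) (k2 hc)
  · refine sup_eq_of_mem hm (stable_mul hx1 _) ?_ (Submodule.mul_mem_mul he1 hf1)
      (key _ _ (h1 he1) he1' hf1')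
    rw [Submodule.mul_le]; exact fun a ha c hc => O.mul_mem (h1 ha) (k1 hc)
  · refine sup_eq_of_mem hm (stable_mul h3.stable _) ?_ (Submodule.mul_mem_mul he2 hf2)
      (key _ _ (h2 he2) he2' hf2')
    rw [Submodule.mul_le]; exact fun a ha c hc => O.mul_mem (h2 ha) (k2 hc)
  · rw [mul_mul_mul_comm, h6, k6]

/-- A homomorphism on `J_b` of the larger order, surjective with kernel `P_b`. -/
structure Chr {G : Type*} [Group G] (O' : Subalgebra ℤ K) (b : Submodule ℤ K) (σ : K →+* ℝ)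
    (A : Submodule ℤ K → G) : Prop where
  mul : ∀ x y, InJ O' b x → InJ O' b y → A (x * y) = A x * A y
  surj : ∀ g, ∃ x, InJ O' b x ∧ A x = g
  ker : ∀ x, InJ O' b x → (A x = 1 ↔ InP O' b σ x)

theorem inv_eq_pow_card {G : Type*} [Group G] [Finite G] (g : G) :
    g⁻¹ = g ^ (2 * Nat.card G - 1) := by
  have h : 0 < Nat.card G := Nat.card_pos
  rw [inv_eq_iff_mul_eq_one, ← pow_succ']
  have : 2 * Nat.card G - 1 + 1 = Nat.card G * 2 := by omega
  rw [this, pow_mul, pow_card_eq_one', one_pow]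

section

variable {G : Type*} [Group G] {A : Submodule ℤ K → G}

theorem Chr.AA_mul (P : Pair O O' m b) (hA : Chr O' b σ A) {g h : Submodule ℤ K}
    (hg : Good O b g) (hh : Good O b h) :
    A (OL O' * (g * h)) = A (OL O' * g) * A (OL O' * h) := by
  rw [ext_mul]
  exact hA.mul _ _ ((P.good_ext hg).inJ P.mB) ((P.good_ext hh).inJ P.mB)

theorem Chr.AA_pow (P : Pair O O' m b) (hA : Chr O' b σ A) {g : Submodule ℤ K}
    (hg : Good O b g) (k : ℕ) (hk : k ≠ 0) : A (OL O' * g ^ k) = A (OL O' * g) ^ k := by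
  obtain ⟨k, rfl⟩ := Nat.exists_eq_succ_of_ne_zero hk
  induction k with
  | zero => simp
  | succ n ih =>
    rw [pow_succ, hA.AA_mul P (hg.pow P.bO _ (by simp)) hg, ih (by simp), pow_succ _ (n + 1)]

theorem Chr.good_ker (P : Pair O O' m b) (hA : Chr O' b σ A) {g : Submodule ℤ K}
    (hg : Good O b g) (h : A (OL O' * g) = 1) :
    ∃ l : K, l - 1 ∈ b ∧ 0 < σ l ∧ g = sm l (OL O) := by
  obtain ⟨l, hl, hσ, hgl'⟩ := (hA.ker _ ((P.good_ext hg).inJ P.mB)).1 h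
  have hgl : OL O' * g = sm l (OL O') := hgl'
  have hlO' : l ∈ O' := by
    have h1 : l * 1 ∈ sm l (OL O') := mul_mem_sm (one_mem_OL O')
    rw [← hgl] at h1
    have := (P.good_ext hg).le h1
    rw [mul_one] at this; exact this
  have hlb : l - 1 ∈ b := loc_inter P.mB (O'.sub_mem hlO' O'.one_mem) hl
  have hlb' : 1 - l ∈ b := by
    have := b.neg_mem hlb
    rwa [neg_sub] at this
  have hlO : l ∈ O := P.one_sub hlb'
  refine ⟨l, hlb, hσ, ?_⟩
  obtain ⟨e, he, he'⟩ := hg.cop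
  have hl1 : l ∈ sm l (OL O) := by
    have := mul_mem_sm (κ := l) (one_mem_OL O)
    rwa [mul_one] at this
  refine P.ext_inj hg.inv.stable hg.le he he' (stable_sm (OL_mul_OL O) l) ?_ hl1 hlb' ?_
  · rw [sm_le_iff]; exact fun x hx => O.mul_mem hlO hx
  · rw [mul_sm, hgl]
    congr 1
    apply le_antisymm
    · have := OL_mul_OL O'
      intro x hx
      have := Submodule.mul_mem_mul hx (one_mem_OL O)
      simpa using this
    · rw [Submodule.mul_le]; exact fun x hx y hy => O'.mul_mem hx (P.le hy)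

/-- The subgroup of values at principal ideals `α O` with `α ≡ 1` modulo `m`. -/
def gam [Finite G] (P : Pair O O' m b) (hA : Chr O' b σ A) : Subgroup G :=
  have hone : ∃ α, Good O b (sm α (OL O)) ∧ α - 1 ∈ Loc O m m ∧ 0 < σ α ∧
      A (OL O' * sm α (OL O)) = 1 := by
    refine ⟨1, by rw [one_sm]; exact good_OL O b, by simpa using loc_of_mem P.mM m.zero_mem,
      by simp, ?_⟩
    rw [one_sm]
    have h := hA.AA_mul P (good_OL O b) (good_OL O b)
    rw [OL_mul_OL] at h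
    exact (mul_eq_left.1 h.symm)
  have hmul : ∀ s t : G, (∃ α, Good O b (sm α (OL O)) ∧ α - 1 ∈ Loc O m m ∧ 0 < σ α ∧
      A (OL O' * sm α (OL O)) = s) → (∃ α, Good O b (sm α (OL O)) ∧ α - 1 ∈ Loc O m m ∧
      0 < σ α ∧ A (OL O' * sm α (OL O)) = t) → ∃ α, Good O b (sm α (OL O)) ∧
      α - 1 ∈ Loc O m m ∧ 0 < σ α ∧ A (OL O' * sm α (OL O)) = s * t := by
    rintro s t ⟨α, h1, h2, h3, rfl⟩ ⟨β, k1, k2, k3, rfl⟩
    have e : sm α (OL O) * sm β (OL O) = sm (α * β) (OL O) := by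
      rw [sm_mul, mul_sm, OL_mul_OL, sm_sm]
    refine ⟨α * β, ?_, one_mod_mul P.mM h2 k2, by rw [map_mul]; positivity, ?_⟩
    · rw [← e]; exact h1.mul P.bO k1
    · rw [← e, hA.AA_mul P h1 k1]
  { carrier := {τ | ∃ α, Good O b (sm α (OL O)) ∧ α - 1 ∈ Loc O m m ∧ 0 < σ α ∧
      A (OL O' * sm α (OL O)) = τ}
    mul_mem' := fun {s t} hs ht => hmul s t hs ht
    one_mem' := hone
    inv_mem' := by
      intro s hs
      rw [inv_eq_pow_card]
      generalize 2 * Nat.card G - 1 = k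
      induction k with
      | zero => rw [pow_zero]; exact hone
      | succ n ih => rw [pow_succ]; exact hmul _ _ ih hs }

theorem mem_gam [Finite G] (P : Pair O O' m b) (hA : Chr O' b σ A) (τ : G) :
    τ ∈ gam P hA ↔ ∃ α, Good O b (sm α (OL O)) ∧ α - 1 ∈ Loc O m m ∧ 0 < σ α ∧
      A (OL O' * sm α (OL O)) = τ := Iff.rfl

theorem Chr.W [Finite G] (P : Pair O O' m b) (hA : Chr O' b σ A) {g h : Submodule ℤ K} {κ : K}
    (hg : Good O b g) (hh : Good O b h) (hκ : κ - 1 ∈ Loc O m m) (hσ : 0 < σ κ)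
    (e : h = sm κ g) : A (OL O' * h) * (A (OL O' * g))⁻¹ ∈ gam P hA := by
  have hc : 2 * Nat.card G - 1 ≠ 0 := by have : 0 < Nat.card G := Nat.card_pos; omega
  have hc' : 2 * Nat.card G ≠ 0 := by omega
  have h1 : A (OL O' * g ^ (2 * Nat.card G)) = 1 := by
    rw [hA.AA_pow P hg _ hc', mul_comm, pow_mul, pow_card_eq_one']
  obtain ⟨l, hl, hlσ, hgl⟩ := hA.good_ker P (hg.pow P.bO _ hc') h1
  have h2 : h * g ^ (2 * Nat.card G - 1) = sm (κ * l) (OL O) := by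
    rw [e, sm_mul, ← pow_succ', show 2 * Nat.card G - 1 + 1 = 2 * Nat.card G by omega, hgl, sm_sm]
  rw [inv_eq_pow_card, ← hA.AA_pow P hg _ hc, ← hA.AA_mul P hh (hg.pow P.bO _ hc), h2]
  refine ⟨κ * l, ?_, one_mod_mul P.mM hκ (loc_of_mem P.mM (P.bm hl)), by
    rw [map_mul]; positivity, rfl⟩
  rw [← h2]
  exact hh.mul P.bO (hg.pow P.bO _ hc)

open Classical in
/-- A representative prime to `b` of an ideal in `J_m`. -/
noncomputable def rr (O : Subalgebra ℤ K) (m b : Submodule ℤ K) (σ : K →+* ℝ)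
    (a : Submodule ℤ K) : Submodule ℤ K :=
  if a ≤ OL O ∧ ∃ e ∈ a, 1 - e ∈ b then a
  else if h : ∃ α, α - 1 ∈ Loc O m m ∧ 0 < σ α ∧ Good O b (sm α a) then sm h.choose a else a

theorem rr_of_le {a : Submodule ℤ K} (h : a ≤ OL O) {e : K} (he : e ∈ a) (h1 : 1 - e ∈ b) :
    rr O m b σ a = a := by
  unfold rr
  rw [if_pos ⟨h, e, he, h1⟩]

theorem Pair.rr_spec [CharZero K] (P : Pair O O' m b) {a : Submodule ℤ K} (ha : InJ O m a) :
    ∃ α, α - 1 ∈ Loc O m m ∧ 0 < σ α ∧ Good O b (sm α a) ∧ rr O m b σ a = sm α a := by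
  by_cases h : a ≤ OL O ∧ ∃ e ∈ a, 1 - e ∈ b
  · refine ⟨1, by simpa using loc_of_mem P.mM m.zero_mem, by simp, ?_, ?_⟩
    · rw [one_sm]; exact ⟨ha.1, h.1, h.2⟩
    · unfold rr
      rw [if_pos h, one_sm]
  · have hex : ∃ α, α - 1 ∈ Loc O m m ∧ 0 < σ α ∧ Good O b (sm α a) := by
      obtain ⟨α, h1, h2, h3, h4⟩ := P.exists_rep σ ha
      exact ⟨α, h1, h2, ha.1.sm (ne_zero_of_pos h2), h3, h4⟩
    refine ⟨hex.choose, hex.choose_spec.1, hex.choose_spec.2.1, hex.choose_spec.2.2, ?_⟩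
    unfold rr
    rw [if_neg h, dif_pos hex]

theorem Chr.art_mul [CharZero K] [Finite G] (P : Pair O O' m b) (hA : Chr O' b σ A)
    {x y : Submodule ℤ K} (hx : InJ O m x) (hy : InJ O m y) :
    A (OL O' * rr O m b σ (x * y)) *
      (A (OL O' * rr O m b σ x) * A (OL O' * rr O m b σ y))⁻¹ ∈ gam P hA := by
  obtain ⟨α, a1, a2, a3, a4⟩ := P.rr_spec (σ := σ) hx
  obtain ⟨β, b1, b2, b3, b4⟩ := P.rr_spec (σ := σ) hy
  obtain ⟨γ, c1, c2, c3, c4⟩ := P.rr_spec (σ := σ) (hx.mul P.mM hy)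
  rw [a4, b4, c4, ← hA.AA_mul P a3 b3]
  have hα := ne_zero_of_pos a2
  have hβ := ne_zero_of_pos b2
  refine hA.W P (κ := γ * (α⁻¹ * β⁻¹)) (a3.mul P.bO b3) c3 ?_ ?_ ?_
  · exact one_mod_mul P.mM c1 (one_mod_mul P.mM (one_mod_inv P.mM a1).2 (one_mod_inv P.mM b1).2)
  · rw [map_mul, map_mul, map_inv₀, map_inv₀]; positivity
  · rw [sm_mul, mul_sm, sm_sm, sm_sm]
    congr 2
    field_simp

theorem sm_pow (β : K) (k : ℕ) (hk : k ≠ 0) : (sm β (OL O)) ^ k = sm (β ^ k) (OL O) := by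
  obtain ⟨k, rfl⟩ := Nat.exists_eq_succ_of_ne_zero hk
  induction k with
  | zero => simp
  | succ n ih => rw [pow_succ, ih (by simp), sm_mul, mul_sm, OL_mul_OL, sm_sm, ← pow_succ]

theorem one_mod_pow (hm : Md O m) {α : K} (h : α - 1 ∈ Loc O m m) (k : ℕ) :
    α ^ k - 1 ∈ Loc O m m := by
  induction k with
  | zero => simpa using loc_of_mem hm m.zero_mem
  | succ n ih => rw [pow_succ]; exact one_mod_mul hm ih h

theorem Chr.art_ker [CharZero K] [Finite G] (P : Pair O O' m b) (hA : Chr O' b σ A)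
    {x : Submodule ℤ K} (hx : InJ O m x) :
    A (OL O' * rr O m b σ x) ∈ gam P hA ↔ InP O m σ x := by
  obtain ⟨α, a1, a2, a3, a4⟩ := P.rr_spec (σ := σ) hx
  have hα := ne_zero_of_pos a2
  have hc : 2 * Nat.card G - 1 ≠ 0 := by have : 0 < Nat.card G := Nat.card_pos; omega
  rw [a4]
  constructor
  · rintro ⟨β, b1, b2, b3, b4⟩
    have hβ := ne_zero_of_pos b3
    have h1 : A (OL O' * (sm α x * (sm β (OL O)) ^ (2 * Nat.card G - 1))) = 1 := by
      rw [hA.AA_mul P a3 (b1.pow P.bO _ hc), hA.AA_pow P b1 _ hc, b4, ← inv_eq_pow_card,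
        mul_inv_cancel]
    obtain ⟨l, hl, hlσ, hgl⟩ := hA.good_ker P (a3.mul P.bO (b1.pow P.bO _ hc)) h1
    rw [sm_pow _ _ hc, sm_mul, mul_sm, mul_comm x, hx.1.stable, sm_sm] at hgl
    set γ := α * β ^ (2 * Nat.card G - 1) with hγ
    have hγ1 : γ - 1 ∈ Loc O m m := one_mod_mul P.mM a1 (one_mod_pow P.mM b2 _)
    have hγσ : 0 < σ γ := by rw [hγ, map_mul, map_pow]; positivity
    have hγ0 := ne_zero_of_pos hγσ
    refine ⟨γ⁻¹ * l, one_mod_mul P.mM (one_mod_inv P.mM hγ1).2 (loc_of_mem P.mM (P.bm hl)),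
      by rw [map_mul, map_inv₀]; positivity, ?_⟩
    change x = sm (γ⁻¹ * l) (OL O)
    rw [← sm_sm, ← hgl, sm_inv_sm hγ0]
  · rintro ⟨β, b1, b2, b3⟩
    have e : sm α x = sm (α * β) (OL O) := by rw [b3]; exact sm_sm _ _ _
    refine ⟨α * β, by rw [← e]; exact a3, one_mod_mul P.mM a1 b1, by
      rw [map_mul]; positivity, by rw [e]⟩

theorem Good.mono {c : Submodule ℤ K} (hbc : b ≤ c) {g : Submodule ℤ K} (h : Good O b g) :
    Good O c g := by
  obtain ⟨e, he, he'⟩ := h.cop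
  exact ⟨h.inv, h.le, e, he, hbc he'⟩

theorem Chr.art_surj [CharZero K] [Finite G] (P : Pair O O' m b) (hA : Chr O' b σ A) (g : G) :
    ∃ x, InJ O m x ∧ A (OL O' * rr O m b σ x) = g := by
  obtain ⟨J, hJ, rfl⟩ := hA.surj g
  obtain ⟨hinv, a₁, a₂, h1, h2, h3, h4, h5, h6⟩ := id hJ
  have hc : 2 * Nat.card G - 1 ≠ 0 := by have : 0 < Nat.card G := Nat.card_pos; omega
  have g2 : Good O' b a₂ := ⟨h3, h2, mem_of_sup_eq h5⟩
  have g1 : Good O' b a₁ := ⟨by rw [← h6]; exact hinv.mul h3, h1, mem_of_sup_eq h4⟩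
  have g3 : Good O' b (a₁ * a₂ ^ (2 * Nat.card G - 1)) := g1.mul P.mB.mul (g2.pow P.mB.mul _ hc)
  obtain ⟨e, he, he'⟩ := g3.cop
  obtain ⟨k1, k2, k3⟩ := P.inv_inf g3.inv g3.le he he'
  set j := a₁ * a₂ ^ (2 * Nat.card G - 1) ⊓ OL O with hj
  have gj : Good O b j := ⟨k1, inf_le_right, e, k3, he'⟩
  refine ⟨j, (gj.mono P.bm).inJ P.mM, ?_⟩
  rw [rr_of_le gj.le k3 he', k2]
  have hpow : ∀ k : ℕ, k ≠ 0 → A (a₂ ^ k) = A a₂ ^ k := by
    intro k hk
    have := hA.AA_pow P.self g2 k hk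
    rwa [g2.inv.stable, (g2.inv.pow k hk).stable] at this
  rw [hA.mul _ _ (g1.inJ P.mB) ((g2.pow P.mB.mul _ hc).inJ P.mB), hpow _ hc, ← inv_eq_pow_card,
    ← h6, hA.mul _ _ hJ (g2.inJ P.mB), mul_inv_cancel_right]

end

end Pool.Agent.W206.MS
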