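import Pool.Agent.W206.MS.Defs

/-! Basic facts on lattices, orders and localizations. -/

namespace Pool.Agent.W206.MS

variable {K : Type*} [Field K]

/-- Working form of a modulus: an `O`-stable submodule of `O` without `1`. -/
structure Md (O : Subalgebra ℤ K) (m : Submodule ℤ K) : Prop where
  le : ∀ x ∈ m, x ∈ O
  mul : ∀ x ∈ O, ∀ y ∈ m, x * y ∈ m
  one : (1 : K) ∉ m

theorem IsModulus.md {O : Subalgebra ℤ K} {m : Submodule ℤ K} (h : IsModulus O m) : Md O m where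
  le x hx := h.1 hx
  mul x hx y hy := h.2.1 (Submodule.mul_mem_mul hx hy)
  one h1 := h.2.2.2 (le_antisymm h.1 fun x hx => by
    have := h.2.1 (Submodule.mul_mem_mul (show x ∈ OL O from hx) h1)
    simpa using this)

section span

/-- `κ y` for a number `κ` and a lattice `y`. -/
abbrev sm (κ : K) (y : Submodule ℤ K) : Submodule ℤ K := Submodule.span ℤ {κ} * y

theorem mem_sm {κ x : K} {y : Submodule ℤ K} : x ∈ sm κ y ↔ ∃ z ∈ y, κ * z = x :=
  Submodule.mem_span_singleton_mul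

theorem mul_mem_sm {κ z : K} {y : Submodule ℤ K} (hz : z ∈ y) : κ * z ∈ sm κ y :=
  mem_sm.2 ⟨z, hz, rfl⟩

theorem sm_sm (κ l : K) (y : Submodule ℤ K) : sm κ (sm l y) = sm (κ * l) y := by
  simp only [sm, ← mul_assoc, Submodule.span_mul_span, Set.singleton_mul_singleton]

theorem sm_mul (κ : K) (y z : Submodule ℤ K) : sm κ y * z = sm κ (y * z) := mul_assoc _ _ _

theorem mul_sm (κ : K) (y z : Submodule ℤ K) : y * sm κ z = sm κ (y * z) := mul_left_comm _ _ _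

theorem one_sm (y : Submodule ℤ K) : sm 1 y = y := by
  ext x; simp [mem_sm]

theorem sm_le_iff {κ : K} {y z : Submodule ℤ K} : sm κ y ≤ z ↔ ∀ x ∈ y, κ * x ∈ z := by
  constructor
  · intro h x hx; exact h (mul_mem_sm hx)
  · intro h x hx
    obtain ⟨w, hw, rfl⟩ := mem_sm.1 hx
    exact h w hw

theorem sm_mono (κ : K) {y z : Submodule ℤ K} (h : y ≤ z) : sm κ y ≤ sm κ z :=
  sm_le_iff.2 fun _ hx => mul_mem_sm (h hx)

theorem sm_inv_sm {κ : K} (h : κ ≠ 0) (y : Submodule ℤ K) : sm κ⁻¹ (sm κ y) = y := by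
  rw [sm_sm, inv_mul_cancel₀ h, one_sm]

theorem sm_sm_inv {κ : K} (h : κ ≠ 0) (y : Submodule ℤ K) : sm κ (sm κ⁻¹ y) = y := by
  rw [sm_sm, mul_inv_cancel₀ h, one_sm]

end span

section inv

variable {O : Subalgebra ℤ K}

theorem OL_mul_OL (O : Subalgebra ℤ K) : OL O * OL O = OL O :=
  O.isIdempotentElem_toSubmodule

theorem one_mem_OL (O : Subalgebra ℤ K) : (1 : K) ∈ OL O := O.one_mem

theorem stable_iff {a : Submodule ℤ K} : OL O * a = a ↔ ∀ x ∈ O, ∀ y ∈ a, x * y ∈ a := by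
  constructor
  · intro h x hx y hy
    rw [← h]; exact Submodule.mul_mem_mul hx hy
  · intro h
    apply le_antisymm
    · rw [Submodule.mul_le]; exact h
    · intro y hy
      have := Submodule.mul_mem_mul (one_mem_OL O) hy
      simpa using this

theorem stable_mul {a : Submodule ℤ K} (h : OL O * a = a) (b : Submodule ℤ K) :
    OL O * (a * b) = a * b := by
  rw [← mul_assoc, h]

theorem stable_sm {a : Submodule ℤ K} (h : OL O * a = a) (κ : K) : OL O * sm κ a = sm κ a := by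
  rw [mul_sm, h]

theorem IsInv.stable {a : Submodule ℤ K} (h : IsInv O a) : OL O * a = a := h.1

theorem IsInv.smul_mem {a : Submodule ℤ K} (h : IsInv O a) {x y : K} (hx : x ∈ O) (hy : y ∈ a) :
    x * y ∈ a := stable_iff.1 h.1 x hx y hy

theorem isInv_OL (O : Subalgebra ℤ K) : IsInv O (OL O) :=
  ⟨OL_mul_OL O, OL O, OL_mul_OL O, OL_mul_OL O⟩

theorem IsInv.mul {a b : Submodule ℤ K} (ha : IsInv O a) (hb : IsInv O b) : IsInv O (a * b) := by
  obtain ⟨ha1, a', ha', haa⟩ := ha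
  obtain ⟨hb1, b', hb', hbb⟩ := hb
  refine ⟨stable_mul ha1 b, a' * b', stable_mul ha' b', ?_⟩
  rw [mul_mul_mul_comm, haa, hbb, OL_mul_OL]

theorem IsInv.sm {a : Submodule ℤ K} (ha : IsInv O a) {κ : K} (hκ : κ ≠ 0) :
    IsInv O (sm κ a) := by
  obtain ⟨ha1, a', ha', haa⟩ := ha
  refine ⟨stable_sm ha1 κ, MS.sm κ⁻¹ a', stable_sm ha' _, ?_⟩
  rw [sm_mul, mul_sm, sm_sm_inv hκ, haa]

theorem IsInv.pow {a : Submodule ℤ K} (ha : IsInv O a) (k : ℕ) (hk : k ≠ 0) :
    IsInv O (a ^ k) := by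
  obtain ⟨k, rfl⟩ := Nat.exists_eq_succ_of_ne_zero hk
  induction k with
  | zero => simpa using ha
  | succ n ih => rw [pow_succ]; exact (ih (by simp)).mul ha

theorem IsInv.cancel {a x y : Submodule ℤ K} (ha : IsInv O a) (hx : OL O * x = x)
    (hy : OL O * y = y) (h : a * x = a * y) : x = y := by
  obtain ⟨ha1, a', ha', haa⟩ := ha
  have : a' * (a * x) = a' * (a * y) := by rw [h]
  rw [← mul_assoc, ← mul_assoc, mul_comm a' a, haa, hx, hy] at this
  exact this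

theorem IsInv.ne_bot {a : Submodule ℤ K} (ha : IsInv O a) : a ≠ ⊥ := by
  rintro rfl
  obtain ⟨-, a', -, haa⟩ := ha
  rw [Submodule.bot_mul] at haa
  have := one_mem_OL O
  rw [← haa] at this
  simp at this

/-- Extension to a larger order. -/
theorem IsInv.ext {O' : Subalgebra ℤ K} (hle : O ≤ O') {a : Submodule ℤ K} (ha : IsInv O a) :
    IsInv O' (OL O' * a) := by
  obtain ⟨ha1, a', ha', haa⟩ := ha
  have h1 : OL O' * OL O = OL O' := by
    apply le_antisymm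
    · rw [Submodule.mul_le]
      intro x hx y hy
      exact O'.mul_mem hx (hle hy)
    · intro x hx
      have := Submodule.mul_mem_mul (show x ∈ OL O' from hx) (one_mem_OL O)
      simpa using this
  refine ⟨by rw [← mul_assoc, OL_mul_OL], OL O' * a', by rw [← mul_assoc, OL_mul_OL], ?_⟩
  rw [mul_mul_mul_comm, OL_mul_OL, haa, h1]

theorem ext_mul (O' : Subalgebra ℤ K) (a b : Submodule ℤ K) :
    OL O' * (a * b) = (OL O' * a) * (OL O' * b) := by
  rw [mul_mul_mul_comm, OL_mul_OL]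

theorem ext_pow (O' : Subalgebra ℤ K) (a : Submodule ℤ K) (k : ℕ) (hk : k ≠ 0) :
    OL O' * a ^ k = (OL O' * a) ^ k := by
  obtain ⟨k, rfl⟩ := Nat.exists_eq_succ_of_ne_zero hk
  induction k with
  | zero => simp
  | succ n ih => rw [pow_succ, ext_mul, ih (by simp), ← pow_succ]

theorem le_ext (O' : Subalgebra ℤ K) (a : Submodule ℤ K) : a ≤ OL O' * a := by
  intro x hx
  have := Submodule.mul_mem_mul (one_mem_OL O') hx
  simpa using this

end inv

section loc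

variable {O : Subalgebra ℤ K} {m : Submodule ℤ K}

theorem cop_iff (hm : Md O m) {s : K} : Cop O m s ↔ s ∈ O ∧ ∃ t ∈ O, 1 - s * t ∈ m := by
  constructor
  · rintro ⟨hs, h⟩
    refine ⟨hs, ?_⟩
    have h1 : (1 : K) ∈ Submodule.span ℤ {s} * OL O ⊔ m := by rw [h]; exact one_mem_OL O
    obtain ⟨y, hy, z, hz, hyz⟩ := Submodule.mem_sup.1 h1
    obtain ⟨t, ht, rfl⟩ := Submodule.mem_span_singleton_mul.1 hy
    exact ⟨t, ht, by rw [← hyz]; simpa using hz⟩
  · rintro ⟨hs, t, ht, h⟩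
    refine ⟨hs, le_antisymm ?_ ?_⟩
    · refine sup_le ?_ fun x hx => hm.le x hx
      intro x hx
      obtain ⟨t, ht, rfl⟩ := Submodule.mem_span_singleton_mul.1 hx
      exact O.mul_mem hs ht
    · intro x hx
      have hx' : x ∈ O := hx
      have : x = s * (t * x) + x * (1 - s * t) := by ring
      rw [this]
      exact Submodule.add_mem_sup (Submodule.mem_span_singleton_mul.2
        ⟨t * x, O.mul_mem ht hx', rfl⟩) (hm.mul x hx' _ h)

theorem cop_one (hm : Md O m) : Cop O m 1 :=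
  (cop_iff hm).2 ⟨O.one_mem, 1, O.one_mem, by simp⟩

theorem Cop.mul (hm : Md O m) {s t : K} (hs : Cop O m s) (ht : Cop O m t) : Cop O m (s * t) := by
  rw [cop_iff hm] at *
  obtain ⟨hs, s', hs', h1⟩ := hs
  obtain ⟨ht, t', ht', h2⟩ := ht
  refine ⟨O.mul_mem hs ht, s' * t', O.mul_mem hs' ht', ?_⟩
  have : 1 - s * t * (s' * t') = (1 - s * s') + (s * s') * (1 - t * t') := by ring
  rw [this]
  exact m.add_mem h1 (hm.mul _ (O.mul_mem hs hs') _ h2)

theorem cop_of_one_sub (hm : Md O m) {s : K} (h : 1 - s ∈ m) : Cop O m s :=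
  (cop_iff hm).2 ⟨by simpa using O.sub_mem O.one_mem (hm.le _ h), 1, O.one_mem, by simpa using h⟩

theorem Cop.mem {s : K} (hs : Cop O m s) : s ∈ O := hs.1

theorem Cop.ne_zero (hm : Md O m) {s : K} (hs : Cop O m s) : s ≠ 0 := by
  rintro rfl
  obtain ⟨-, t, -, h⟩ := (cop_iff hm).1 hs
  apply hm.one
  simpa using h

theorem loc_of_mem (hm : Md O m) {N : Submodule ℤ K} {x : K} (hx : x ∈ N) : x ∈ Loc O m N :=
  ⟨1, cop_one hm, by simpa using hx⟩

theorem loc_mono {N N' : Submodule ℤ K} (h : N ≤ N') {x : K} (hx : x ∈ Loc O m N) :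
    x ∈ Loc O m N' := by
  obtain ⟨s, hs, h1⟩ := hx
  exact ⟨s, hs, h h1⟩

theorem loc_add (hm : Md O m) {N : Submodule ℤ K} (hN : ∀ x ∈ O, ∀ y ∈ N, x * y ∈ N) {x y : K}
    (hx : x ∈ Loc O m N) (hy : y ∈ Loc O m N) : x + y ∈ Loc O m N := by
  obtain ⟨s, hs, h1⟩ := hx
  obtain ⟨t, ht, h2⟩ := hy
  refine ⟨s * t, hs.mul hm ht, ?_⟩
  have : s * t * (x + y) = t * (s * x) + s * (t * y) := by ring
  rw [this]
  exact N.add_mem (hN _ ht.mem _ h1) (hN _ hs.mem _ h2)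

theorem loc_neg {N : Submodule ℤ K} {x : K}
    (hx : x ∈ Loc O m N) : -x ∈ Loc O m N := by
  obtain ⟨s, hs, h1⟩ := hx
  exact ⟨s, hs, by simpa using h1⟩

theorem loc_sub (hm : Md O m) {N : Submodule ℤ K} (hN : ∀ x ∈ O, ∀ y ∈ N, x * y ∈ N) {x y : K}
    (hx : x ∈ Loc O m N) (hy : y ∈ Loc O m N) : x - y ∈ Loc O m N := by
  rw [sub_eq_add_neg]; exact loc_add hm hN hx (loc_neg hy)

theorem loc_mul (hm : Md O m) {N : Submodule ℤ K} (hN : ∀ x ∈ O, ∀ y ∈ N, x * y ∈ N) {x y : K}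
    (hx : x ∈ Loc O m (OL O)) (hy : y ∈ Loc O m N) : x * y ∈ Loc O m N := by
  obtain ⟨s, hs, h1⟩ := hx
  obtain ⟨t, ht, h2⟩ := hy
  refine ⟨s * t, hs.mul hm ht, ?_⟩
  have : s * t * (x * y) = (s * x) * (t * y) := by ring
  rw [this]
  exact hN _ h1 _ h2

theorem OL_stable : ∀ x ∈ O, ∀ y ∈ OL O, x * y ∈ OL O := fun _ hx _ hy => O.mul_mem hx hy

theorem loc_m_le (hm : Md O m) {x : K} (hx : x ∈ Loc O m m) : x ∈ Loc O m (OL O) :=
  loc_mono (fun x hx => hm.le x hx) hx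

theorem loc_inter (hm : Md O m) {x : K} (h : x ∈ O) (hx : x ∈ Loc O m m) : x ∈ m := by
  obtain ⟨s, hs, h1⟩ := hx
  obtain ⟨-, t, ht, h2⟩ := (cop_iff hm).1 hs
  have : x = x * (1 - s * t) + t * (s * x) := by ring
  rw [this]
  exact m.add_mem (hm.mul _ h _ h2) (hm.mul _ ht _ h1)

theorem loc_of_cop_mul (hm : Md O m) {N : Submodule ℤ K} {s x : K} (hs : Cop O m s)
    (h : s * x ∈ Loc O m N) : x ∈ Loc O m N := by
  obtain ⟨t, ht, h1⟩ := h
  exact ⟨t * s, ht.mul hm hs, by rwa [mul_assoc]⟩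

/-- Numbers `α ≡ 1` modulo `m R`. -/
theorem one_mod_mem (hm : Md O m) {α : K} (h : α - 1 ∈ Loc O m m) : α ∈ Loc O m (OL O) := by
  have := loc_add hm OL_stable (loc_m_le hm h) (loc_of_mem hm (one_mem_OL O))
  simpa using this

theorem one_mod_mul (hm : Md O m) {α β : K} (h : α - 1 ∈ Loc O m m) (h' : β - 1 ∈ Loc O m m) :
    α * β - 1 ∈ Loc O m m := by
  have : α * β - 1 = α * (β - 1) + (α - 1) := by ring
  rw [this]
  exact loc_add hm hm.mul (loc_mul hm hm.mul (one_mod_mem hm h) h') h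

theorem one_mod_inv (hm : Md O m) {α : K} (h : α - 1 ∈ Loc O m m) :
    α ≠ 0 ∧ α⁻¹ - 1 ∈ Loc O m m := by
  obtain ⟨s, hs, h1⟩ := h
  obtain ⟨hs', t, ht, h2⟩ := (cop_iff hm).1 hs
  have h3 : Cop O m (s * α) := by
    rw [cop_iff hm]
    have e : s * α = s * (α - 1) + s := by ring
    refine ⟨by rw [e]; exact O.add_mem (hm.le _ h1) hs', t, ht, ?_⟩
    have : 1 - s * α * t = (1 - s * t) - t * (s * (α - 1)) := by ring
    rw [this]
    exact m.sub_mem h2 (hm.mul _ ht _ h1)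
  have h4 : α ≠ 0 := by
    rintro rfl
    exact h3.ne_zero hm (by simp)
  refine ⟨h4, s * α, h3, ?_⟩
  have : s * α * (α⁻¹ - 1) = -(s * (α - 1)) := by field_simp; ring
  rw [this]
  exact m.neg_mem h1

end loc

end Pool.Agent.W206.MS
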