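import Pool.Agent.W206.MS.Count

/-! Finiteness of the set of classes. -/

namespace Pool.Agent.W206.MS

variable {K : Type*} [Field K] {O O' : Subalgebra ℤ K} {m b : Submodule ℤ K} {σ : K →+* ℝ}

theorem finite_quot [CharZero K] {L b : Submodule ℤ K} (hL : L.FG) {n : ℤ} (hn : n ≠ 0)
    (h : ∀ x ∈ L, n • x ∈ b) : Finite (L ⧸ (b.comap L.subtype)) := by
  have h1 := relIndex_ne_zero_of_fg L b hL n hn h
  have e : b.toAddSubgroup.relIndex L.toAddSubgroup = Nat.card (L ⧸ (b.comap L.subtype)) := rfl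
  rw [e] at h1
  exact (Nat.card_ne_zero.1 h1).2

theorem Good.sup_eq (hb : Md O b) {g : Submodule ℤ K} (hg : Good O b g) : g ⊔ b = OL O := by
  obtain ⟨e, he, he'⟩ := hg.cop
  apply le_antisymm
  · exact sup_le hg.le fun x hx => hb.le x hx
  · intro x hx
    have : x = x * e + x * (1 - e) := by ring
    rw [this]
    exact Submodule.add_mem_sup (hg.inv.smul_mem hx he) (hb.mul x hx _ he')

theorem Good.inJ (hb : Md O b) {g : Submodule ℤ K} (hg : Good O b g) : InJ O b g := by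
  refine ⟨hg.inv, g, OL O, hg.le, le_rfl, isInv_OL O, hg.sup_eq hb, ?_, ?_⟩
  · exact sup_eq_left.2 fun x hx => hb.le x hx
  · rw [mul_comm]; exact hg.inv.stable

theorem good_OL (O : Subalgebra ℤ K) (b : Submodule ℤ K) : Good O b (OL O) :=
  ⟨isInv_OL O, le_rfl, 1, one_mem_OL O, by simp⟩

/-- quotient of two good ideals -/
theorem inJ_div (hb : Md O b) {g h h' : Submodule ℤ K} (hg : Good O b g) (hh : Good O b h)
    (hh' : OL O * h' = h') (hhh : h' * h = OL O) : InJ O b (g * h') := by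
  have hinv : IsInv O h' := ⟨hh', h, hh.inv.stable, hhh⟩
  refine ⟨hg.inv.mul hinv, g, h, hg.le, hh.le, hh.inv, hg.sup_eq hb, hh.sup_eq hb, ?_⟩
  rw [mul_assoc, hhh, mul_comm, hg.inv.stable]

theorem Pair.finite_classes [CharZero K] (P : Pair O O' m b) {G : Type*} [Group G] [Finite G]
    (A : Submodule ℤ K → G) (hmul : ∀ x y, InJ O' b x → InJ O' b y → A (x * y) = A x * A y)
    (hker : ∀ x, InJ O' b x → A x = 1 → InP O' b σ x) : Finite (QQ P.mB σ) := by
  classical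
  obtain ⟨n, hn, hnb⟩ := P.char
  have hfq : Finite (OL O' ⧸ (b.comap (OL O').subtype)) :=
    finite_quot P.fg' hn (fun x hx => by
      have := P.mB.mul x hx _ hnb
      rwa [zsmul_eq_mul, mul_comm])
  have hex : ∀ q : QQ P.mB σ, ∃ γ : K, ∃ I' : Submodule ℤ K, γ ∈ rep q ∧ OL O' * I' = I' ∧
      rep q * I' = OL O' ∧ ∃ u ∈ I', 1 - γ * u ∈ b := by
    intro q
    obtain ⟨hst, I', hI', hII⟩ := id (rep_inv q)
    obtain ⟨γ, hγ, u, hu, hγu⟩ := LP P.mB.mul P.fin' hst hI' hII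
    exact ⟨γ, I', hγ, hI', hII, u, hu, hγu⟩
  choose γ I' hγ hI' hII u hu hγu using hex
  have hγO : ∀ q, γ q ∈ O' := fun q => rep_le q (hγ q)
  have hcop : ∀ q, Cop O' b (γ q * u q) := fun q => cop_of_one_sub P.mB (hγu q)
  have hγ0 : ∀ q, γ q ≠ 0 := fun q h => (hcop q).ne_zero P.mB (by simp [h])
  have hgood : ∀ q, Good O' b (sm (γ q) (I' q)) := by
    intro q
    refine ⟨IsInv.sm ⟨hI' q, rep q, (rep_inv q).stable, by rw [mul_comm]; exact hII q⟩ (hγ0 q),
      ?_, γ q * u q, mul_mem_sm (hu q), hγu q⟩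
    rw [sm_le_iff]
    intro x hx
    rw [← hII q]
    exact Submodule.mul_mem_mul (hγ q) hx
  let f : QQ P.mB σ → G × (OL O' ⧸ (b.comap (OL O').subtype)) × Prop := fun q =>
    (A (sm (γ q) (I' q)), Submodule.Quotient.mk ⟨γ q, hγO q⟩, 0 < σ (γ q))
  refine Finite.of_injective f ?_
  intro q r hqr
  simp only [f, Prod.mk.injEq] at hqr
  obtain ⟨h1, h2, h3⟩ := hqr
  have h2' : γ q - γ r ∈ b := by
    have := (Submodule.Quotient.eq (b.comap (OL O').subtype)).1 h2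
    simpa using this
  -- the ideal `t` with `t * g_r = g_q`
  have hrinv : sm (γ r)⁻¹ (rep r) * sm (γ r) (I' r) = OL O' := by
    rw [sm_mul, mul_sm, sm_inv_sm (hγ0 r), hII r]
  have hqinv : sm (γ q)⁻¹ (rep q) * sm (γ q) (I' q) = OL O' := by
    rw [sm_mul, mul_sm, sm_inv_sm (hγ0 q), hII q]
  have hrst : OL O' * sm (γ r)⁻¹ (rep r) = sm (γ r)⁻¹ (rep r) :=
    stable_sm (rep_inv r).stable _
  have hqst : OL O' * sm (γ q)⁻¹ (rep q) = sm (γ q)⁻¹ (rep q) :=
    stable_sm (rep_inv q).stable _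
  have ht := inJ_div P.mB (hgood q) (hgood r) hrst hrinv
  set t := sm (γ q) (I' q) * sm (γ r)⁻¹ (rep r) with htdef
  have htr : t * sm (γ r) (I' r) = sm (γ q) (I' q) := by
    rw [htdef, mul_assoc, hrinv, mul_comm, (hgood q).inv.stable]
  have hAt : A t = 1 := by
    have := hmul t _ ht ((hgood r).inJ P.mB)
    rw [htr, h1] at this
    exact (mul_eq_right.1 this.symm)
  obtain ⟨l, hl, hlσ, htl⟩ := hker t ht hAt
  -- `c_r = λ c_q`
  have h4 : sm (γ r)⁻¹ (rep r) = sm l (sm (γ q)⁻¹ (rep q)) := by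
    have h5 : sm (γ q)⁻¹ (rep q) * t = sm (γ r)⁻¹ (rep r) := by
      rw [htdef, ← mul_assoc, hqinv, hrst]
    rw [← h5, htl, mul_sm, mul_comm _ (OL O'), hqst]
  have h6 : rep r = sm (γ r * l * (γ q)⁻¹) (rep q) := by
    have := congrArg (sm (γ r)) h4
    rw [sm_sm_inv (hγ0 r), sm_sm, sm_sm] at this
    exact this
  have hlR : l ∈ Loc O' b (OL O') := one_mod_mem P.mB hl
  rw [← cls_rep q, ← cls_rep r]
  apply cls_eq_iff.2
  apply REq.symm
  refine ⟨γ r * l * (γ q)⁻¹, ?_, ?_, h6⟩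
  · have hq0 : σ (γ q) ≠ 0 := by simpa using hγ0 q
    have hr0 : σ (γ r) ≠ 0 := by simpa using hγ0 r
    rw [map_mul, map_mul, map_inv₀]
    by_cases hq : 0 < σ (γ q)
    · have hr : 0 < σ (γ r) := by rw [← h3]; exact hq
      positivity
    · have hr : ¬ 0 < σ (γ r) := by rw [← h3]; exact hq
      have hq' : σ (γ q) < 0 := lt_of_le_of_ne (not_lt.1 hq) hq0
      have hr' : σ (γ r) < 0 := lt_of_le_of_ne (not_lt.1 hr) hr0
      have : 0 < (σ (γ r) * (σ (γ q))⁻¹) := mul_pos_of_neg_of_neg hr' (inv_lt_zero.2 hq')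
      have e : σ (γ r) * σ l * (σ (γ q))⁻¹ = (σ (γ r) * (σ (γ q))⁻¹) * σ l := by ring
      rw [e]; positivity
  · intro z hz
    have e : (γ r * l * (γ q)⁻¹ - 1) * z = ((γ q)⁻¹ * z) * (γ r * (l - 1) - (γ q - γ r)) := by
      have := hγ0 q
      field_simp
      ring
    rw [e]
    have h7 : (γ q)⁻¹ * z ∈ Loc O' b (OL O') := by
      refine ⟨γ q * u q, hcop q, ?_⟩
      have : γ q * u q * ((γ q)⁻¹ * z) = z * u q := by
        have := hγ0 q
        field_simp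
      rw [this, ← hII q]
      exact Submodule.mul_mem_mul hz (hu q)
    refine loc_mul P.mB P.mB.mul h7 (loc_sub P.mB P.mB.mul ?_ (loc_of_mem P.mB h2'))
    exact loc_mul P.mB P.mB.mul (loc_of_mem P.mB (hγO r)) hl

end Pool.Agent.W206.MS
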