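import Pool.Agent.W206.MS.Index

/-! Counting ideals of `O` over ideals of `O'`. -/

namespace Pool.Agent.W206.MS

variable {K : Type*} [Field K] {O O' : Subalgebra ℤ K} {m b : Submodule ℤ K} {σ : K →+* ℝ}

/-- The integral invertible ideals `x` of `O` in the class of `a` with `O' x = I`. -/
def XS (O O' : Subalgebra ℤ K) (m : Submodule ℤ K) (σ : K →+* ℝ) (I a : Submodule ℤ K) :
    Set (Submodule ℤ K) :=
  {x | IsInv O x ∧ x ≤ OL O ∧ REq O m σ x a ∧ OL O' * x = I}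

/-- Their number. -/
noncomputable def nn (O O' : Subalgebra ℤ K) (m : Submodule ℤ K) (σ : K →+* ℝ)
    (I a : Submodule ℤ K) : ℕ := (XS O O' m σ I a).ncard

theorem Pair.XS_map (P : Pair O O' m b) {I J a : Submodule ℤ K} {κ : K} (hκ : 0 < σ κ)
    (h1 : ∀ z ∈ I, (κ - 1) * z ∈ Loc O' b b) (hJ : J = sm κ I) (hJO : J ≤ OL O')
    {x : Submodule ℤ K} (hx : x ∈ XS O O' m σ I a) : sm κ x ∈ XS O O' m σ J a := by
  obtain ⟨hinv, hle, hrel, rfl⟩ := hx
  have h2 : ∀ z ∈ x, (κ - 1) * z ∈ b := by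
    intro z hz
    have hzI := le_ext O' x hz
    apply loc_inter P.mB _ (h1 z hzI)
    have : (κ - 1) * z = κ * z - z := by ring
    rw [this]
    refine O'.sub_mem (hJO ?_) (P.le (hle hz))
    rw [hJ]; exact mul_mem_sm hzI
  refine ⟨hinv.sm (ne_zero_of_pos hκ), ?_, ?_, ?_⟩
  · rw [sm_le_iff]
    intro z hz
    have : κ * z = (κ - 1) * z + z := by ring
    rw [this]
    exact O.add_mem (P.b_le (h2 z hz)) (hle hz)
  · refine REq.trans P.mM ⟨κ, hκ, ?_, rfl⟩ hrel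
    exact fun z hz => loc_of_mem P.mM (P.bm (h2 z hz))
  · rw [mul_sm, hJ]

theorem Pair.nn_congr_left (P : Pair O O' m b) {I J : Submodule ℤ K} (a : Submodule ℤ K)
    (h : REq O' b σ J I) (hI : I ≤ OL O') (hJ : J ≤ OL O') :
    nn O O' m σ I a = nn O O' m σ J a := by
  obtain ⟨κ, hκ, h1, hJI⟩ := id h
  have h0 := ne_zero_of_pos hκ
  refine Set.ncard_congr (fun x _ => sm κ x) (fun x hx => P.XS_map hκ h1 hJI hJ hx) ?_ ?_
  · intro x y _ _ hxy
    have := congrArg (sm κ⁻¹) hxy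
    rwa [sm_inv_sm h0, sm_inv_sm h0] at this
  · intro y hy
    obtain ⟨l, hl, h2, hIJ⟩ := h.symm
    have hl2 : ∀ z ∈ J, (κ⁻¹ - 1) * z ∈ Loc O' b b := by
      intro z hz
      rw [hJI] at hz
      obtain ⟨w, hw, rfl⟩ := mem_sm.1 hz
      have : (κ⁻¹ - 1) * (κ * w) = -((κ - 1) * w) := by field_simp; ring
      rw [this]
      exact loc_neg (h1 w hw)
    refine ⟨sm κ⁻¹ y, P.XS_map (κ := κ⁻¹) (by rw [map_inv₀]; positivity) hl2 ?_ hI hy,
      sm_sm_inv h0 y⟩
    rw [hJI, sm_inv_sm h0]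

theorem nn_congr_right (hm : Md O m) (I : Submodule ℤ K) {a c : Submodule ℤ K}
    (h : REq O m σ a c) : nn O O' m σ I a = nn O O' m σ I c := by
  unfold nn
  congr 1
  ext x
  constructor
  · rintro ⟨h1, h2, h3, h4⟩
    exact ⟨h1, h2, h3.trans hm h, h4⟩
  · rintro ⟨h1, h2, h3, h4⟩
    exact ⟨h1, h2, h3.trans hm h.symm, h4⟩

/-- `g` is an integral invertible ideal of `O` prime to `b`. -/
structure Good (O : Subalgebra ℤ K) (b g : Submodule ℤ K) : Prop where
  inv : IsInv O g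
  le : g ≤ OL O
  cop : ∃ e ∈ g, 1 - e ∈ b

theorem Good.subset_loc (hm : Md O m) {g : Submodule ℤ K} (h : Good O b g) :
    (g : Set K) ⊆ Loc O m (OL O) := fun _ hx => loc_of_mem hm (h.le hx)

theorem Good.mul (hb : ∀ x ∈ O, ∀ y ∈ b, x * y ∈ b) {g h : Submodule ℤ K} (hg : Good O b g)
    (hh : Good O b h) : Good O b (g * h) := by
  obtain ⟨e, he, he'⟩ := hg.cop
  obtain ⟨f, hf, hf'⟩ := hh.cop
  refine ⟨hg.inv.mul hh.inv, ?_, e * f, Submodule.mul_mem_mul he hf, ?_⟩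
  · rw [Submodule.mul_le]
    exact fun x hx y hy => O.mul_mem (hg.le hx) (hh.le hy)
  · have : 1 - e * f = (1 - e) + e * (1 - f) := by ring
    rw [this]
    exact b.add_mem he' (hb _ (hg.le he) _ hf')

theorem Good.pow (hb : ∀ x ∈ O, ∀ y ∈ b, x * y ∈ b) {g : Submodule ℤ K} (hg : Good O b g)
    (k : ℕ) (hk : k ≠ 0) : Good O b (g ^ k) := by
  obtain ⟨k, rfl⟩ := Nat.exists_eq_succ_of_ne_zero hk
  induction k with
  | zero => simpa using hg
  | succ n ih => rw [pow_succ]; exact (ih (by simp)).mul hb hg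

theorem Pair.good_ext (P : Pair O O' m b) {g : Submodule ℤ K} (hg : Good O b g) :
    Good O' b (OL O' * g) := by
  obtain ⟨e, he, he'⟩ := hg.cop
  refine ⟨hg.inv.ext P.le, ?_, e, le_ext O' g he, he'⟩
  rw [Submodule.mul_le]
  exact fun x hx y hy => O'.mul_mem hx (P.le (hg.le hy))

theorem Pair.nn_mul (P : Pair O O' m b) {I a g : Submodule ℤ K} (hg : Good O b g)
    (hI : IsInv O' I) (hIO : I ≤ OL O') (ha : OL O * a = a) :
    nn O O' m σ I a = nn O O' m σ (OL O' * g * I) (g * a) := by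
  obtain ⟨e, he, he'⟩ := hg.cop
  obtain ⟨hst, g', hg', hgg⟩ := id hg.inv
  refine Set.ncard_congr (fun x _ => g * x) ?_ ?_ ?_
  · rintro x ⟨h1, h2, h3, h4⟩
    refine ⟨hg.inv.mul h1, ?_, h3.mul_left P.mM g (hg.subset_loc P.mM), ?_⟩
    · rw [Submodule.mul_le]
      exact fun y hy z hz => O.mul_mem (hg.le hy) (h2 hz)
    · rw [ext_mul, h4]
  · rintro x y hx hy hxy
    exact hg.inv.cancel hx.1.stable hy.1.stable hxy
  · rintro y ⟨h1, h2, h3, h4⟩
    have hxy : g * (g' * y) = y := by rw [← mul_assoc, hgg, h1.stable]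
    have hinv' : IsInv O g' := ⟨hg', g, hst, by rw [mul_comm]; exact hgg⟩
    have h5 : OL O' * (g' * y) = I := by
      apply (hg.inv.ext P.le).cancel _ hI.stable
      · rw [← ext_mul, hxy, h4]
      · rw [← mul_assoc, OL_mul_OL]
    refine ⟨g' * y, ⟨hinv'.mul h1, ?_, ?_, h5⟩, hxy⟩
    · intro z hz
      have hzI : z ∈ OL O' := hIO (h5 ▸ le_ext O' _ hz)
      have : z = e * z + z * (1 - e) := by ring
      rw [this]
      refine Submodule.add_mem _ (h2 ?_) (P.b_le (P.mB.mul _ hzI _ he'))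
      rw [← hxy]; exact Submodule.mul_mem_mul he hz
    · obtain ⟨κ, hκ, h6, h7⟩ := h3
      have h8 : g' * y = sm κ (g' * (g * a)) := by rw [h7, mul_sm]
      have h9 : REq O m σ (sm κ a) a :=
        REq.cancel P.mM hκ he (cop_of_one_sub P.mM (P.bm he')) h6
      have h10 : g' * (g * a) = a := by rw [← mul_assoc, mul_comm g' g, hgg, ha]
      rw [h8, h10]
      exact h9

theorem Pair.idx_ne_zero [CharZero K] (P : Pair O O' m b) {I : Submodule ℤ K} (hI : IsInv O' I) :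
    idx O' I ≠ 0 := by
  obtain ⟨w, hw, hw0⟩ := Submodule.exists_mem_ne_zero_of_ne_bot hI.ne_bot
  obtain ⟨n, hn, h⟩ := P.self.full w⁻¹
  refine relIndex_ne_zero_of_fg _ _ P.fg' n hn fun z hz => ?_
  have : n • z = (((n : K) * w⁻¹) * z) * w := by rw [zsmul_eq_mul]; field_simp
  rw [this]
  exact hI.smul_mem (O'.mul_mem h hz) hw

theorem Pair.XS_finite [CharZero K] (P : Pair O O' m b) {I a : Submodule ℤ K}
    (hI : IsInv O' I) : (XS O O' m σ I a).Finite := by
  refine (finite_sublattices (OL O) P.fg (idx O' I) (P.idx_ne_zero hI)).subset ?_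
  rintro x ⟨h1, h2, h3, h4⟩
  refine ⟨h2, ?_⟩
  rw [← h4, ← P.idx_ext h1 h2]
  rfl

/-- The ideals counted by `cnt`. -/
def CS (O : Subalgebra ℤ K) (m : Submodule ℤ K) (σ : K →+* ℝ) (a : Submodule ℤ K) (n : ℕ) :
    Set (Submodule ℤ K) :=
  {x | IsInv O x ∧ x ≤ OL O ∧ REq O m σ x a ∧ idx O x = n}

theorem cnt_eq (hm : Md O m) (hfin : ∀ x ∈ O, ∃ k, 0 < k ∧ x ^ (2 * k) - x ^ k ∈ m)
    {a : Submodule ℤ K} (ha : InMonoid O m a) (n : ℕ) : cnt O m σ a n = (CS O m σ a n).ncard := by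
  unfold cnt
  rw [← Nat.card_coe_set_eq]
  refine Nat.card_congr (Equiv.subtypeEquivRight fun x => ?_)
  rw [rel_iff hm hfin ha]
  rfl

theorem Pair.CS_finite [CharZero K] (P : Pair O O' m b) (a : Submodule ℤ K) {n : ℕ}
    (hn : n ≠ 0) : (CS O m σ a n).Finite := by
  refine (finite_sublattices (OL O) P.fg n hn).subset ?_
  rintro x ⟨h1, h2, h3, h4⟩
  exact ⟨h2, h4⟩

/-- Integral invertible ideals. -/
def II (O' : Subalgebra ℤ K) : Type _ := {I : Submodule ℤ K // IsInv O' I ∧ I ≤ OL O'}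

/-- Classes of integral invertible ideals of `O'`. -/
def cs (hb : Md O' b) (σ : K →+* ℝ) : Setoid (II O') where
  r I J := REq O' b σ I.1 J.1
  iseqv := ⟨fun I => REq.refl hb I.1, fun h => h.symm, fun h h' => h.trans hb h'⟩

/-- The set of classes. -/
abbrev QQ (hb : Md O' b) (σ : K →+* ℝ) : Type _ := Quotient (cs hb σ)

/-- The class of an integral invertible ideal. -/
def cls (hb : Md O' b) (σ : K →+* ℝ) (I : Submodule ℤ K) (h : IsInv O' I ∧ I ≤ OL O') :
    QQ hb σ := Quotient.mk (cs hb σ) ⟨I, h⟩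

/-- A representative of a class. -/
noncomputable def rep {hb : Md O' b} (q : QQ hb σ) : Submodule ℤ K := (Quotient.out q).1

theorem rep_inv {hb : Md O' b} (q : QQ hb σ) : IsInv O' (rep q) := (Quotient.out q).2.1

theorem rep_le {hb : Md O' b} (q : QQ hb σ) : rep q ≤ OL O' := (Quotient.out q).2.2

theorem cls_rep {hb : Md O' b} (q : QQ hb σ) : cls hb σ (rep q) ⟨rep_inv q, rep_le q⟩ = q :=
  Quotient.out_eq q

theorem cls_eq_iff {hb : Md O' b} {I J : Submodule ℤ K} {hI : IsInv O' I ∧ I ≤ OL O'}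
    {hJ : IsInv O' J ∧ J ≤ OL O'} : cls hb σ I hI = cls hb σ J hJ ↔ REq O' b σ I J :=
  Quotient.eq (r := cs hb σ)

theorem rep_cls {hb : Md O' b} {I : Submodule ℤ K} (hI : IsInv O' I ∧ I ≤ OL O') :
    REq O' b σ (rep (cls hb σ I hI)) I := by
  have := cls_rep (cls hb σ I hI)
  exact cls_eq_iff.1 this

/-- The basic counting identity. -/
theorem Pair.count [CharZero K] (P : Pair O O' m b) [Fintype (QQ P.mB σ)] (a : Submodule ℤ K)
    {n : ℕ} (hn : n ≠ 0) :
    (CS O m σ a n).ncard = ∑ q : QQ P.mB σ, nn O O' m σ (rep q) a *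
      (CS O' b σ (rep q) n).ncard := by
  classical
  have hT : {I : Submodule ℤ K | IsInv O' I ∧ I ≤ OL O' ∧ idx O' I = n}.Finite := by
    refine (finite_sublattices (OL O') P.fg' n hn).subset ?_
    rintro x ⟨h1, h2, h3⟩
    exact ⟨h2, h3⟩
  have hC := P.CS_finite (σ := σ) a hn
  rw [Set.ncard_eq_toFinset_card _ hC]
  rw [Finset.card_eq_sum_card_fiberwise (f := fun x => OL O' * x) (t := hT.toFinset)]
  swap
  · intro x hx
    simp only [Set.Finite.coe_toFinset] at hx ⊢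
    obtain ⟨h1, h2, h3, h4⟩ := hx
    refine ⟨h1.ext P.le, ?_, ?_⟩
    · rw [Submodule.mul_le]; exact fun y hy z hz => O'.mul_mem hy (P.le (h2 hz))
    · rw [← P.idx_ext h1 h2, h4]
  have h1 : ∀ I ∈ hT.toFinset, (hC.toFinset.filter (fun x => OL O' * x = I)).card =
      nn O O' m σ I a := by
    intro I hI
    rw [Set.Finite.mem_toFinset] at hI
    unfold nn
    rw [Set.ncard_eq_toFinset_card _ (P.XS_finite hI.1)]
    congr 1
    ext x
    simp only [Finset.mem_filter, Set.Finite.mem_toFinset]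
    constructor
    · rintro ⟨⟨h1, h2, h3, h4⟩, h5⟩
      exact ⟨h1, h2, h3, h5⟩
    · rintro ⟨h1, h2, h3, h5⟩
      refine ⟨⟨h1, h2, h3, ?_⟩, h5⟩
      rw [P.idx_ext h1 h2, h5, hI.2.2]
  rw [Finset.sum_congr rfl h1]
  let f : Submodule ℤ K → QQ P.mB σ := fun I =>
    if h : IsInv O' I ∧ I ≤ OL O' then cls P.mB σ I h
    else cls P.mB σ (OL O') ⟨isInv_OL O', le_rfl⟩
  have hf : ∀ I (h : IsInv O' I ∧ I ≤ OL O'), f I = cls P.mB σ I h := fun I h => dif_pos h
  rw [← Finset.sum_fiberwise hT.toFinset f]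
  refine Finset.sum_congr rfl fun q _ => ?_
  have h2 : ∀ I ∈ hT.toFinset.filter (fun I => f I = q), nn O O' m σ I a =
      nn O O' m σ (rep q) a := by
    intro I hI
    rw [Finset.mem_filter, Set.Finite.mem_toFinset] at hI
    obtain ⟨⟨h3, h4, -⟩, h5⟩ := hI
    refine P.nn_congr_left a ?_ h4 (rep_le q)
    rw [hf I ⟨h3, h4⟩] at h5
    rw [← h5]
    exact rep_cls ⟨h3, h4⟩
  rw [Finset.sum_congr rfl h2, Finset.sum_const, smul_eq_mul, mul_comm]
  congr 1
  rw [Set.ncard_eq_toFinset_card _ (P.self.CS_finite (σ := σ) (rep q) hn)]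
  congr 1
  ext I
  simp only [Finset.mem_filter, Set.Finite.mem_toFinset]
  constructor
  · rintro ⟨⟨h1, h2, h3⟩, h4⟩
    refine ⟨h1, h2, ?_, h3⟩
    rw [hf I ⟨h1, h2⟩] at h4
    rw [← h4]
    exact (rep_cls ⟨h1, h2⟩).symm
  · rintro ⟨h1, h2, h3, h4⟩
    refine ⟨⟨h1, h2, h4⟩, ?_⟩
    rw [hf I ⟨h1, h2⟩, ← cls_rep q]
    exact cls_eq_iff.2 h3

/-- Multiplication by an integral invertible ideal on classes. -/
noncomputable def mulQ (hb : Md O' b) (σ : K →+* ℝ) {G : Submodule ℤ K} (hG : Good O' b G)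
    (q : QQ hb σ) : QQ hb σ :=
  cls hb σ (G * rep q) ⟨hG.inv.mul (rep_inv q), by
    rw [Submodule.mul_le]; exact fun x hx y hy => O'.mul_mem (hG.le hx) (rep_le q hy)⟩

theorem mulQ_injective (hb : Md O' b) {G : Submodule ℤ K} (hG : Good O' b G) :
    Function.Injective (mulQ hb σ hG) := by
  intro q r h
  have h1 := cls_eq_iff.1 h
  rw [← cls_rep q, ← cls_rep r]
  apply cls_eq_iff.2
  obtain ⟨κ, hκ, h2, h3⟩ := h1
  obtain ⟨e, he, he'⟩ := hG.cop
  have h4 := REq.cancel hb hκ he (cop_of_one_sub hb he') h2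
  have h5 : rep q = sm κ (rep r) := by
    apply hG.inv.cancel (rep_inv q).stable (stable_sm (rep_inv r).stable κ)
    rw [h3, mul_sm]
  rw [h5]; exact h4

theorem mulQ_bijective (hb : Md O' b) [Finite (QQ hb σ)] {G : Submodule ℤ K}
    (hG : Good O' b G) : Function.Bijective (mulQ hb σ hG) :=
  Finite.injective_iff_bijective.1 (mulQ_injective hb hG)

theorem Pair.nn_mulQ (P : Pair O O' m b) {g a : Submodule ℤ K} (hg : Good O b g)
    (ha : OL O * a = a) (q : QQ P.mB σ) :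
    nn O O' m σ (rep q) a = nn O O' m σ (rep (mulQ P.mB σ (P.good_ext hg) q)) (g * a) := by
  rw [P.nn_mul hg (rep_inv q) (rep_le q) ha]
  have hh : IsInv O' (OL O' * g * rep q) ∧ OL O' * g * rep q ≤ OL O' :=
    ⟨(P.good_ext hg).inv.mul (rep_inv q), by
      rw [Submodule.mul_le]
      exact fun x hx y hy => O'.mul_mem ((P.good_ext hg).le hx) (rep_le q hy)⟩
  exact P.nn_congr_left _ (rep_cls hh) hh.2 (rep_le _)

end Pool.Agent.W206.MS
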