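import Mathlib

/-!
Definitions for the monoid Stark conjecture over real quadratic orders (MP_6bf7a3_nt).
-/

namespace Pool.Agent.W206.MS

open Complex

section general

variable {K : Type*} [Field K]

/-- The additive group of a subring `O` of `K`, as a lattice in `K`. -/
abbrev OL (O : Subalgebra ℤ K) : Submodule ℤ K := Subalgebra.toSubmodule O

/-- `O` is an order of `K`: a subring which is finitely generated as an abelian group and spans
`K` over the rational numbers. -/
def IsOrder (O : Subalgebra ℤ K) : Prop :=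
  (OL O).FG ∧ ∀ x : K, ∃ n : ℤ, n ≠ 0 ∧ (n : K) * x ∈ O

/-- `m` is a nonzero integral `O`-ideal different from `O`. -/
def IsModulus (O : Subalgebra ℤ K) (m : Submodule ℤ K) : Prop :=
  m ≤ OL O ∧ OL O * m ≤ m ∧ m ≠ ⊥ ∧ m ≠ OL O

/-- `a` is an invertible fractional `O`-ideal. -/
def IsInv (O : Subalgebra ℤ K) (a : Submodule ℤ K) : Prop :=
  OL O * a = a ∧ ∃ b : Submodule ℤ K, OL O * b = b ∧ a * b = OL O

/-- `s` lies in the set `S_m` of all `s ∈ O` with `s O + m = O`. -/
def Cop (O : Subalgebra ℤ K) (m : Submodule ℤ K) (s : K) : Prop :=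
  s ∈ O ∧ Submodule.span ℤ {s} * OL O ⊔ m = OL O

/-- The localization of the `O`-submodule `N` of `K` at `S_m`, as a subset of `K`.
`Loc O m (OL O)` is the ring `R = O[S_m⁻¹]` and `Loc O m m` is its ideal `m R`. -/
def Loc (O : Subalgebra ℤ K) (m N : Submodule ℤ K) : Set K :=
  {x | ∃ s, Cop O m s ∧ s * x ∈ N}

/-- `a` is an invertible fractional `O`-ideal contained in `R`; the classes of these form the
ray class monoid. -/
def InMonoid (O : Subalgebra ℤ K) (m a : Submodule ℤ K) : Prop :=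
  IsInv O a ∧ (a : Set K) ⊆ Loc O m (OL O)

/-- The equivalence relation defining the ray class monoid: `a = α c`, `b = β c` with `c` in the
monoid, `α, β ∈ R`, `α - β ∈ m R` and `σ α`, `σ β` of the same sign. -/
def Rel (O : Subalgebra ℤ K) (m : Submodule ℤ K) (σ : K →+* ℝ) (a b : Submodule ℤ K) : Prop :=
  ∃ c : Submodule ℤ K, InMonoid O m c ∧ ∃ α β : K, α ∈ Loc O m (OL O) ∧ β ∈ Loc O m (OL O) ∧
    a = Submodule.span ℤ {α} * c ∧ b = Submodule.span ℤ {β} * c ∧ α - β ∈ Loc O m m ∧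
    SignType.sign (σ α) = SignType.sign (σ β)

/-- The index `[O : a]` of `a ⊆ O`. -/
noncomputable def idx (O : Subalgebra ℤ K) (a : Submodule ℤ K) : ℕ :=
  a.toAddSubgroup.relIndex (OL O).toAddSubgroup

/-- The number of `b ⊆ O` of index `n` in the class of `a` in the ray class monoid: the `n`-th
coefficient of the zeta function of that class. -/
noncomputable def cnt (O : Subalgebra ℤ K) (m : Submodule ℤ K) (σ : K →+* ℝ)
    (a : Submodule ℤ K) (n : ℕ) : ℕ :=
  Nat.card {b : Submodule ℤ K // IsInv O b ∧ b ≤ OL O ∧ Rel O m σ b a ∧ idx O b = n}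

/-- `F` is the analytic continuation to the complex numbers without `1` of the differenced zeta
function `ζ(s, A) - ζ(s, R A)`, where `A` is the class of `a` and `R` is the class of `ρ O` for
`ρ ∈ O` with `ρ ≡ -1` modulo `m` and `σ ρ > 0`. -/
def IsZ (O : Subalgebra ℤ K) (m : Submodule ℤ K) (σ : K →+* ℝ) (a : Submodule ℤ K)
    (F : ℂ → ℂ) : Prop :=
  (∃ ρ ∈ O, ρ + 1 ∈ m ∧ 0 < σ ρ ∧ ∀ s : ℂ, 1 < s.re →
    LSeriesHasSum (fun n => (cnt O m σ a n : ℂ) - (cnt O m σ (Submodule.span ℤ {ρ} * a) n : ℂ))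
      s (F s)) ∧ DifferentiableOn ℂ F {1}ᶜ

/-- `a` lies in the group `J_m` of invertible fractional ideals `a₁ a₂⁻¹` with `a₁, a₂` integral
and coprime to `m`, and `a₂` invertible. -/
def InJ (O : Subalgebra ℤ K) (m a : Submodule ℤ K) : Prop :=
  IsInv O a ∧ ∃ a₁ a₂ : Submodule ℤ K, a₁ ≤ OL O ∧ a₂ ≤ OL O ∧ IsInv O a₂ ∧
    a₁ ⊔ m = OL O ∧ a₂ ⊔ m = OL O ∧ a * a₂ = a₁

/-- `a = α O` with `α ≡ 1` modulo `m` (that is, `α - 1 ∈ m R`) and `σ α > 0`. -/
def InP (O : Subalgebra ℤ K) (m : Submodule ℤ K) (σ : K →+* ℝ) (a : Submodule ℤ K) : Prop :=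
  ∃ α : K, α - 1 ∈ Loc O m m ∧ 0 < σ α ∧ a = Submodule.span ℤ {α} * OL O

end general

section real

/-- `A` induces an isomorphism from the ray class group `J_m / P_m` onto the group `G`. -/
def InducesIso {K : Type*} [Field K] {G : Type*} [Group G] (σ : K →+* ℝ) (O : Subalgebra ℤ K)
    (m : Submodule ℤ K) (A : Submodule ℤ K → G) : Prop :=
  (∀ a b, InJ O m a → InJ O m b → A (a * b) = A a * A b) ∧ (∀ g, ∃ a, InJ O m a ∧ A a = g) ∧
  (∀ a, InJ O m a → (A a = 1 ↔ InP O m σ a))

/-- `P` is a prime ideal of the ring of all real algebraic integers. -/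
def IsRealPrime (P : Set ℝ) : Prop :=
  (∀ x ∈ P, IsIntegral ℤ x) ∧ 0 ∈ P ∧ (∀ x ∈ P, ∀ y ∈ P, x + y ∈ P) ∧
  (∀ x y, IsIntegral ℤ x → y ∈ P → x * y ∈ P) ∧ 1 ∉ P ∧
  (∀ x y, IsIntegral ℤ x → IsIntegral ℤ y → x * y ∈ P → x ∈ P ∨ y ∈ P)

/- In the rest, `K` is a field with a fixed embedding into `ℝ` (the place `∞₁`), and `σ` is
another embedding (the place `∞₂`).  Subfields of `ℝ` containing `K` are intermediate fields. -/
variable {K : Type*} [Field K] [Algebra K ℝ]

/-- The contraction to the order `O` of an ideal `P` of the ring of real algebraic integers. -/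
def contr (P : Set ℝ) (O : Subalgebra ℤ K) : Submodule ℤ K :=
  Submodule.span ℤ {x | x ∈ O ∧ algebraMap K ℝ x ∈ P}

/-- `H` is a finite abelian extension of `K`. -/
def IsFiniteAbelian (H : IntermediateField K ℝ) : Prop :=
  FiniteDimensional K H ∧ IsAbelianGalois K H

/-- `g x ≡ x ^ N` modulo `P` for all algebraic integers `x` of `H`. -/
def IsFrobenius (H : IntermediateField K ℝ) (P : Set ℝ) (g : H ≃ₐ[K] H) (N : ℕ) : Prop :=
  ∀ x : H, IsIntegral ℤ (x : ℝ) → ((g x : H) : ℝ) - (x : ℝ) ^ N ∈ P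

/-- `(H, Art)` is the ray class field of `O` modulo `m ∞₂` with its Artin map: `H` is a finite
abelian extension of `K` inside the real numbers, `Art` induces an isomorphism from
`J_m / P_m` onto its Galois group, and for every prime `P` of the ring of real algebraic
integers whose contraction `𝔭` to the maximal order is coprime to `(m : O_K)`, the element
`Art (P ∩ O)` is a Frobenius element at `P`. -/
def IsRayClassField (σ : K →+* ℝ) (O : Subalgebra ℤ K)
    (m : Submodule ℤ K) (H : IntermediateField K ℝ) (Art : Submodule ℤ K → (H ≃ₐ[K] H)) : Prop :=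
  IsFiniteAbelian H ∧ InducesIso σ O m Art ∧
  (∀ P : Set ℝ, IsRealPrime P →
    contr P (integralClosure ℤ K) ⊔ m / OL (integralClosure ℤ K) = OL (integralClosure ℤ K) →
    IsFrobenius H P (Art (contr P O)) (idx (integralClosure ℤ K) (contr P (integralClosure ℤ K))))

/-- Condition (i): `e = exp (-Z'(0))` for the differenced zeta function `Z` of the class of
`a`. -/
def CondI (σ : K →+* ℝ) (O : Subalgebra ℤ K) (m a : Submodule ℤ K) (e : ℝ) : Prop :=
  ∃ F : ℂ → ℂ, IsZ O m σ a F ∧ (e : ℂ) = Complex.exp (- deriv F 0)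

/-- Condition (ii): `Art b` maps `ε a` to `ε (b a)` for all `b` in `J_m`. -/
def CondII (O : Subalgebra ℤ K) (m : Submodule ℤ K) (H : IntermediateField K ℝ)
    (Art : Submodule ℤ K → (H ≃ₐ[K] H)) (ε : Submodule ℤ K → H) (a : Submodule ℤ K) : Prop :=
  ∀ b, InJ O m b → Art b (ε a) = ε (b * a)

/-- Condition (iii): `|τ e| = 1` for all embeddings `τ` of `H` over the place `∞₂`. -/
def CondIII (σ : K →+* ℝ) (H : IntermediateField K ℝ) (e : H) : Prop :=
  ∀ τ : H →+* ℂ, (∀ x : K, τ (algebraMap K H x) = ((σ x : ℝ) : ℂ)) → ‖τ e‖ = 1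

/-- Condition (iv): `H(√e)` is abelian over `K`. -/
def CondIV (H : IntermediateField K ℝ) (e : ℝ) : Prop :=
  IsAbelianGalois K (H ⊔ IntermediateField.adjoin K {Real.sqrt e} : IntermediateField K ℝ)

/-- The assertion of the monoid Stark conjecture for the order `O` and the modulus `m`: a family
`ε` of units of the ray class field, depending only on classes, with (i)-(iv). -/
def MonoidStark (σ : K →+* ℝ) (O : Subalgebra ℤ K) (m : Submodule ℤ K) : Prop :=
  ∃ (H : IntermediateField K ℝ) (Art : Submodule ℤ K → (H ≃ₐ[K] H)),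
    IsRayClassField σ O m H Art ∧
    ∃ ε : Submodule ℤ K → H, ∀ a, InMonoid O m a →
      (∀ b, InMonoid O m b → Rel O m σ b a → ε b = ε a) ∧
      (IsIntegral ℤ (ε a : ℝ) ∧ IsIntegral ℤ (ε a : ℝ)⁻¹) ∧
      CondI σ O m a (ε a) ∧ CondII O m H Art ε a ∧ CondIII σ H (ε a) ∧ CondIV H (ε a)

end real

end Pool.Agent.W206.MS
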