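import Pool.Agent.W206.MS.Main

/-! Orders of real quadratic fields: the final form of the reduction. -/

namespace Pool.Agent.W206.MS

variable {K : Type*} [Field K]

theorem exists_common {O O' : Subalgebra ℤ K} (hfg : (OL O').FG)
    (hfull : ∀ x : K, ∃ n : ℤ, n ≠ 0 ∧ (n : K) * x ∈ O) :
    ∃ k : ℤ, k ≠ 0 ∧ ∀ x ∈ O', (k : K) * x ∈ O := by
  classical
  obtain ⟨S, hS⟩ := hfg
  have h1 : ∃ k : ℤ, k ≠ 0 ∧ ∀ x ∈ S, (k : K) * x ∈ O := by
    clear hS
    induction S using Finset.induction_on with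
    | empty => exact ⟨1, one_ne_zero, by simp⟩
    | insert a S _ ih =>
      obtain ⟨k, hk, h⟩ := ih
      obtain ⟨n, hn, h'⟩ := hfull a
      refine ⟨k * n, mul_ne_zero hk hn, ?_⟩
      intro x hx
      rcases Finset.mem_insert.1 hx with rfl | hx
      · have : ((k * n : ℤ) : K) * x = (k : K) * ((n : K) * x) := by push_cast; ring
        rw [this]
        exact O.mul_mem (intCast_mem O k) h'
      · have : ((k * n : ℤ) : K) * x = (n : K) * ((k : K) * x) := by push_cast; ring
        rw [this]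
        exact O.mul_mem (intCast_mem O n) (h x hx)
  obtain ⟨k, hk, h⟩ := h1
  refine ⟨k, hk, ?_⟩
  have h2 : OL O' ≤ (OL O).comap (LinearMap.lsmul ℤ K k) := by
    rw [← hS, Submodule.span_le]
    intro x hx
    have := h x hx
    change k • x ∈ OL O
    rw [zsmul_eq_mul]; exact this
  intro x hx
  have := h2 hx
  change k • x ∈ OL O at this
  rw [zsmul_eq_mul] at this
  exact this

theorem mkPair {O O' : Subalgebra ℤ K} {m : Submodule ℤ K} (hO : IsOrder O)
    (hO' : IsOrder O') (hle : O ≤ O') (hm : IsModulus O m) : Pair O O' m (m / OL O') := by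
  have hM := hm.md
  have hb : ∀ x ∈ m / OL O', x ∈ m := by
    intro x hx
    have := Submodule.mem_div_iff_forall_mul_mem.1 hx 1 (one_mem_OL O')
    simpa using this
  refine ⟨hle, hO.1, hO'.1, hM, ⟨?_, ?_, ?_⟩, hb, ?_, hO.2⟩
  · exact fun x hx => hle (hM.le x (hb x hx))
  · intro x hx y hy
    rw [Submodule.mem_div_iff_forall_mul_mem] at hy ⊢
    intro z hz
    have : x * y * z = y * (x * z) := by ring
    rw [this]
    exact hy _ (O'.mul_mem hx hz)
  · exact fun h => hM.one (hb 1 h)
  · obtain ⟨μ, hμ, hμ0⟩ := Submodule.exists_mem_ne_zero_of_ne_bot hm.2.2.1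
    obtain ⟨n, hn, hn'⟩ := hO.2 μ⁻¹
    have hnm : (n : K) ∈ m := by
      have := hM.mul _ hn' _ hμ
      rwa [mul_assoc, inv_mul_cancel₀ hμ0, mul_one] at this
    obtain ⟨k, hk, hk'⟩ := exists_common hO'.1 hO.2
    have h1 : ((n * k : ℤ) : K) ∈ m / OL O' := by
      rw [Submodule.mem_div_iff_forall_mul_mem]
      intro y hy
      have : ((n * k : ℤ) : K) * y = ((k : K) * y) * n := by push_cast; ring
      rw [this]
      exact hM.mul _ (hk' y hy) _ hnm
    refine ⟨(n * k).natAbs, Int.natAbs_pos.2 (mul_ne_zero hn hk), ?_⟩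
    have h2 : (((n * k).natAbs : ℤ) : K) ∈ m / OL O' := by
      rcases Int.natAbs_eq (n * k) with h | h
      · rw [← h]; exact h1
      · have : (((n * k).natAbs : ℤ) : K) = -((n * k : ℤ) : K) := by
          conv_rhs => rw [h]
          push_cast
          ring
        rw [this]
        exact Submodule.neg_mem _ h1
    rwa [Int.cast_natCast] at h2

theorem colon_isModulus [CharZero K] {O O' : Subalgebra ℤ K} {m : Submodule ℤ K} (hO : IsOrder O)
    (hO' : IsOrder O') (hle : O ≤ O') (hm : IsModulus O m) : IsModulus O' (m / OL O') := by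
  have P := mkPair hO hO' hle hm
  refine ⟨fun x hx => P.mB.le x hx, ?_, ?_, ?_⟩
  · rw [Submodule.mul_le]; exact P.mB.mul
  · intro h
    obtain ⟨N, hN, h1⟩ := P.pos
    rw [h, Submodule.mem_bot] at h1
    exact hN.ne' (by exact_mod_cast h1)
  · intro h
    apply P.mB.one
    rw [h]; exact one_mem_OL O'

theorem isOrder_maxOrder (K : Type*) [Field K] [NumberField K] :
    IsOrder (integralClosure ℤ K) := by
  refine ⟨?_, ?_⟩
  · have h1 : IsNoetherian ℤ (integralClosure ℤ K) :=
      IsIntegralClosure.isNoetherian ℤ ℚ K (integralClosure ℤ K)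
    have h2 : Module.Finite ℤ (OL (integralClosure ℤ K)) := by
      change Module.Finite ℤ (integralClosure ℤ K)
      infer_instance
    exact Module.Finite.iff_fg.1 h2
  · intro x
    have h1 : IsAlgebraic ℤ x :=
      (IsFractionRing.isAlgebraic_iff ℤ ℚ K).2 (Algebra.IsAlgebraic.isAlgebraic x)
    obtain ⟨y, hy, h⟩ := h1.exists_integral_multiple
    refine ⟨y, hy, ?_⟩
    rw [zsmul_eq_mul] at h
    exact h

end Pool.Agent.W206.MS
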