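import Pool.Agent.W206.MS.Pair

/-! Indices. -/

namespace Pool.Agent.W206.MS

variable {K : Type*} [Field K]

/-- relative index of lattices -/
noncomputable def ri (A B : Submodule ℤ K) : ℕ := A.toAddSubgroup.relIndex B.toAddSubgroup

theorem idx_eq (O : Subalgebra ℤ K) (a : Submodule ℤ K) : idx O a = ri a (OL O) := rfl

theorem ri_mul {A B C : Submodule ℤ K} (h1 : A ≤ B) (h2 : B ≤ C) : ri A B * ri B C = ri A C :=
  AddSubgroup.relIndex_mul_relIndex _ _ _ (Submodule.toAddSubgroup_mono h1)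
    (Submodule.toAddSubgroup_mono h2)

theorem ri_sup (A B : Submodule ℤ K) : ri A (A ⊔ B) = ri (A ⊓ B) B := by
  unfold ri
  rw [Submodule.sup_toAddSubgroup, AddSubgroup.relIndex_sup_left]
  have : (A ⊓ B).toAddSubgroup = A.toAddSubgroup ⊓ B.toAddSubgroup := rfl
  rw [this, AddSubgroup.inf_relIndex_right]

theorem ri_sm {κ : K} (hκ : κ ≠ 0) (A B : Submodule ℤ K) : ri (sm κ A) (sm κ B) = ri A B := by
  have h : ∀ C : Submodule ℤ K, (sm κ C).toAddSubgroup =
      C.toAddSubgroup.map (AddMonoidHom.mulLeft κ) := by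
    intro C
    ext x
    simp only [Submodule.mem_toAddSubgroup, mem_sm, AddSubgroup.mem_map,
      AddMonoidHom.coe_mulLeft]
  unfold ri
  rw [h, h, AddSubgroup.relIndex_map_map_of_injective]
  intro x y hxy
  exact mul_left_cancel₀ hκ hxy

theorem Pair.idx_ext [CharZero K] {O O' : Subalgebra ℤ K} {m b : Submodule ℤ K}
    (P : Pair O O' m b) {x : Submodule ℤ K} (hx : IsInv O x) (hle : x ≤ OL O) :
    idx O x = idx O' (OL O' * x) := by
  obtain ⟨hst, x', hx', hxx⟩ := id hx
  obtain ⟨γ, hγ, u, hu, hγu⟩ := LP P.bO P.fin hst hx' hxx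
  have hγ0 : γ ≠ 0 := by
    rintro rfl
    apply P.mM.one
    apply P.bm
    simpa using hγu
  have hγO : γ ∈ O := hle hγ
  have hO : ∀ z ∈ x, z * u ∈ O := fun z hz => by
    have := Submodule.mul_mem_mul hz hu
    rw [hxx] at this; exact this
  have hOO : OL O ≤ OL O' := P.le
  set A := sm γ (OL O) with hA
  set A' := sm γ (OL O') with hA'
  set X := OL O' * x with hX
  have h1 : A ≤ x := by
    rw [hA, sm_le_iff]
    intro w hw
    rw [mul_comm]; exact hx.smul_mem hw hγ
  have h2 : A' ≤ X := by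
    rw [hA', sm_le_iff]
    intro w hw
    rw [mul_comm]; exact Submodule.mul_mem_mul hw hγ
  have h3 : X = A' ⊔ x := by
    apply le_antisymm
    · rw [hX, Submodule.mul_le]
      intro w hw z hz
      have : w * z = γ * (w * (z * u)) + (w * (1 - γ * u)) * z := by ring
      rw [this]
      refine Submodule.add_mem_sup (mul_mem_sm (O'.mul_mem hw (P.le (hO z hz)))) ?_
      exact hx.smul_mem (P.b_le (P.mB.mul _ hw _ hγu)) hz
    · exact sup_le h2 (le_ext O' x)
  have h4 : A' ⊓ x = A := by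
    apply le_antisymm
    · rintro z ⟨hz, hzx⟩
      obtain ⟨w, hw, rfl⟩ := mem_sm.1 hz
      apply mul_mem_sm
      have : w = (γ * w) * u + w * (1 - γ * u) := by ring
      change w ∈ O
      rw [this]
      exact O.add_mem (hO _ hzx) (P.b_le (P.mB.mul _ hw _ hγu))
    · exact le_inf (sm_mono γ hOO) h1
  have h5 : ri A' X = ri A x := by rw [h3, ri_sup, h4]
  have h6 : ri A A' = ri (OL O) (OL O') := ri_sm hγ0 _ _
  have h7 : ri (OL O) (OL O') ≠ 0 := by
    obtain ⟨n, hn, hnb⟩ := P.char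
    refine relIndex_ne_zero_of_fg _ _ P.fg' n hn fun w hw => ?_
    have := P.b_le (P.mB.mul w hw _ hnb)
    rw [zsmul_eq_mul, mul_comm]; exact this
  have hA'O' : A' ≤ OL O' := by
    rw [hA', sm_le_iff]; exact fun w hw => O'.mul_mem (P.le hγO) hw
  have hAO : A ≤ OL O := h1.trans hle
  have h8 : ri A A' * ri A' (OL O') = ri A (OL O) * ri (OL O) (OL O') := by
    rw [ri_mul (sm_mono γ hOO) hA'O', ri_mul hAO hOO]
  have h9 : ri A' (OL O') = ri A (OL O) := by
    rw [h6, mul_comm] at h8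
    exact Nat.eq_of_mul_eq_mul_right (Nat.pos_of_ne_zero h7) h8
  have h10 : ri A (OL O) ≠ 0 := by
    obtain ⟨n, hn, h⟩ := P.full γ⁻¹
    refine relIndex_ne_zero_of_fg _ _ P.fg n hn fun w hw => ?_
    have : n • w = γ * ((n * γ⁻¹) * w) := by rw [zsmul_eq_mul]; field_simp
    rw [this]
    exact mul_mem_sm (O.mul_mem h hw)
  have hXO' : X ≤ OL O' := by
    rw [hX, Submodule.mul_le]; exact fun w hw z hz => O'.mul_mem hw (P.le (hle hz))
  have h11 : ri A x * ri x (OL O) = ri A x * ri X (OL O') := by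
    rw [ri_mul h1 hle, ← h5, ri_mul h2 hXO', h9]
  have h12 : ri A x ≠ 0 := by
    intro h0
    rw [← ri_mul h1 hle, h0, zero_mul] at h10
    exact h10 rfl
  exact Nat.eq_of_mul_eq_mul_left (Nat.pos_of_ne_zero h12) h11

/-- There are only finitely many sublattices of given index. -/
theorem finite_sublattices [CharZero K] (L : Submodule ℤ K) (hL : L.FG) (n : ℕ) (hn : n ≠ 0) :
    {A : Submodule ℤ K | A ≤ L ∧ ri A L = n}.Finite := by
  have : Module.Finite ℤ L := Module.Finite.iff_fg.2 hL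
  have hmem : ∀ A : Submodule ℤ K, A ≤ L → ri A L = n → ∀ x ∈ L, n • x ∈ A := by
    intro A hA hAn x hx
    have := AddSubgroup.nsmul_relIndex_mem A.toAddSubgroup (K := L.toAddSubgroup) hx
    rwa [show A.toAddSubgroup.relIndex L.toAddSubgroup = n from hAn] at this
  set N : Submodule ℤ L := (L.map (LinearMap.lsmul ℤ K (n : ℤ))).comap L.subtype with hN
  have hNmem : ∀ x : L, x ∈ N ↔ ∃ y ∈ L, n • y = x.1 := by
    intro x
    rw [hN, Submodule.mem_comap, Submodule.mem_map]
    simp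
  have ht : Module.IsTorsion ℤ (L ⧸ N) := by
    intro x
    induction x using Submodule.Quotient.induction_on with
    | H x =>
      refine ⟨⟨(n : ℤ), mem_nonZeroDivisors_of_ne_zero (by exact_mod_cast hn)⟩, ?_⟩
      have h1 : (n : ℤ) • x ∈ N := (hNmem _).2 ⟨x.1, x.2, by simp⟩
      change (n : ℤ) • (Submodule.Quotient.mk x : L ⧸ N) = 0
      rw [← Submodule.Quotient.mk_smul]
      exact (Submodule.Quotient.mk_eq_zero _).2 h1
  have : Finite (L ⧸ N) := Module.finite_of_fg_torsion _ ht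
  let f : Submodule ℤ K → Set (L ⧸ N) := fun A => {q | ∃ x : L, x.1 ∈ A ∧
    (Submodule.Quotient.mk x : L ⧸ N) = q}
  refine Set.Finite.of_injOn (f := f) (t := Set.univ) (fun _ _ => Set.mem_univ _) ?_
    Set.finite_univ
  have key : ∀ A B : Submodule ℤ K, A ≤ L → B ≤ L → ri B L = n → f A = f B → A ≤ B := by
    intro A B hA hB hBn h x hx
    have h1 : (Submodule.Quotient.mk ⟨x, hA hx⟩ : L ⧸ N) ∈ f A := ⟨⟨x, hA hx⟩, hx, rfl⟩
    rw [h] at h1
    obtain ⟨y, hy, hyq⟩ := h1
    have h2 := (Submodule.Quotient.eq _).1 hyq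
    obtain ⟨z, hz, hzy⟩ := (hNmem _).1 h2
    have h3 := hmem B hB hBn z hz
    rw [hzy] at h3
    have : x = y.1 - (y.1 - x) := by ring
    rw [this]
    exact B.sub_mem hy (by simpa using h3)
  rintro A ⟨hA, hAn⟩ B ⟨hB, hBn⟩ h
  exact le_antisymm (key A B hA hB hBn h) (key B A hB hA hAn h.symm)

end Pool.Agent.W206.MS
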