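import Mathlib

/-! Field theory: restriction to a fixed field, composita of abelian extensions. -/

namespace Pool.Agent.W206.MS

section

variable {k Ω : Type*} [Field k] [Field Ω] [Algebra k Ω]

theorem exists_res (H' : IntermediateField k Ω) [FiniteDimensional k H'] [IsAbelianGalois k H']
    (Γ : Subgroup (H' ≃ₐ[k] H')) :
    ∃ (H : IntermediateField k Ω) (hle : H ≤ H') (res : (H' ≃ₐ[k] H') →* (H ≃ₐ[k] H)),
      FiniteDimensional k H ∧ IsAbelianGalois k H ∧ Function.Surjective res ∧
      (∀ τ, res τ = 1 ↔ τ ∈ Γ) ∧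
      (∀ τ (x : H), ((res τ x : H) : Ω) = ((τ ⟨x, hle x.2⟩ : H') : Ω)) ∧
      (∀ x : H', (∀ τ ∈ Γ, τ x = x) → (x : Ω) ∈ H) := by
  let F : IntermediateField k H' := IntermediateField.fixedField Γ
  have hFab : IsAbelianGalois k F := inferInstance
  let e := IntermediateField.liftAlgEquiv F
  have hle : IntermediateField.lift F ≤ H' := IntermediateField.lift_le F
  refine ⟨IntermediateField.lift F, hle,
    (AlgEquiv.autCongr e).toMonoidHom.comp (AlgEquiv.restrictNormalHom F), ?_, ?_, ?_, ?_, ?_, ?_⟩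
  · exact e.toLinearEquiv.finiteDimensional
  · exact IsAbelianGalois.of_algHom (IntermediateField.inclusion hle)
  · exact (AlgEquiv.autCongr e).surjective.comp (AlgEquiv.restrictNormalHom_surjective H')
  · intro τ
    have h1 : AlgEquiv.restrictNormalHom F τ = 1 ↔ τ ∈ Γ := by
      rw [← MonoidHom.mem_ker, IntermediateField.restrictNormalHom_ker,
        IntermediateField.fixingSubgroup_fixedField]
    rw [← h1]
    simp only [MonoidHom.comp_apply]
    exact map_eq_one_iff (AlgEquiv.autCongr e).toMonoidHom (AlgEquiv.autCongr e).injective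
  · intro τ x
    have h1 := AlgEquiv.restrictNormalHom_apply F τ (e.symm x)
    have h2 := congrArg (fun y : H' => (y : Ω)) h1
    exact h2
  · intro x hx
    have : x ∈ F := by
      intro τ
      exact hx τ.1 τ.2
    exact (IntermediateField.mem_lift x).2 this

theorem commutator_fixes {L : Type*} [Field L] [Algebra k L] (E : IntermediateField k L)
    [IsAbelianGalois k E] (σ τ : L ≃ₐ[k] L) (y : L) (hy : y ∈ E) : σ (τ y) = τ (σ y) := by
  have h1 : AlgEquiv.restrictNormalHom E (σ * τ) = AlgEquiv.restrictNormalHom E (τ * σ) := by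
    rw [map_mul, map_mul]
    exact (IsMulCommutative.is_comm (M := (E ≃ₐ[k] E))).comm _ _
  have h2 := AlgEquiv.restrictNormalHom_apply E (σ * τ) ⟨y, hy⟩
  have h3 := AlgEquiv.restrictNormalHom_apply E (τ * σ) ⟨y, hy⟩
  rw [h1] at h2
  exact h2.symm.trans h3

theorem isAbelianGalois_iSup [CharZero k] {ι : Type*} (E : ι → IntermediateField k Ω)
    (h : ∀ i, IsAbelianGalois k (E i)) : IsAbelianGalois k (⨆ i, E i : IntermediateField k Ω) := by
  have hn : Normal k (⨆ i, E i : IntermediateField k Ω) :=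
    IntermediateField.normal_iSup (h := fun i => inferInstance)
  have hg : IsGalois k (⨆ i, E i : IntermediateField k Ω) :=
    { to_isSeparable := inferInstance, to_normal := hn }
  refine { is_comm := ⟨fun σ τ => ?_⟩ }
  let L : IntermediateField k Ω := ⨆ i, E i
  let c : L ≃ₐ[k] L := (τ * σ)⁻¹ * (σ * τ)
  let F : IntermediateField k L := IntermediateField.fixedField (Subgroup.zpowers c)
  have hF : ∀ y : L, c y = y → y ∈ F := by
    intro y hy
    rintro ⟨g, hg⟩
    obtain ⟨n, rfl⟩ := Subgroup.mem_zpowers_iff.1 hg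
    have hst : c ∈ MulAction.stabilizer (L ≃ₐ[k] L) y := hy
    exact (MulAction.stabilizer (L ≃ₐ[k] L) y).zpow_mem hst n
  have hFc : ∀ y ∈ F, c y = y := by
    intro y hy
    exact hy ⟨c, Subgroup.mem_zpowers c⟩
  have hle : (⨆ i, E i) ≤ IntermediateField.lift F := by
    refine iSup_le fun i x hx => ?_
    have hi : E i ≤ L := le_iSup E i
    have hab : IsAbelianGalois k (IntermediateField.restrict hi) :=
      IsAbelianGalois.of_algHom (IntermediateField.restrictAlgEquiv hi).symm.toAlgHom
    have h1 : (⟨x, hi hx⟩ : L) ∈ F := by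
      apply hF
      have h2 : (⟨x, hi hx⟩ : L) ∈ IntermediateField.restrict hi :=
        (IntermediateField.mem_restrict hi _).2 hx
      have h3 := commutator_fixes (IntermediateField.restrict hi) σ τ ⟨x, hi hx⟩ h2
      change (τ * σ)⁻¹ (σ (τ _)) = _
      rw [h3]
      exact (τ * σ).symm_apply_apply _
    exact (IntermediateField.mem_lift (F := L) ⟨x, hi hx⟩).2 h1
  apply AlgEquiv.ext
  intro y
  have h1 : y ∈ F := (IntermediateField.mem_lift y).1 (hle y.2)
  have h2 := hFc y h1
  have h3 : (τ * σ) (c y) = (τ * σ) y := by rw [h2]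
  rw [← h3]
  change (σ * τ) y = (τ * σ) ((τ * σ)⁻¹ ((σ * τ) y))
  exact ((τ * σ).apply_symm_apply _).symm

theorem isAbelianGalois_le {E F : IntermediateField k Ω} (h : E ≤ F) [IsAbelianGalois k F] :
    IsAbelianGalois k E := IsAbelianGalois.of_algHom (IntermediateField.inclusion h)

theorem extend_hom {E F : Type*} [Field E] [Field F] [Algebra k E] [Algebra k F]
    [Algebra.IsAlgebraic k F] (i : E →ₐ[k] F) (τ : E →+* ℂ) :
    ∃ τ' : F →+* ℂ, ∀ x, τ' (i x) = τ x := by
  let _ : Algebra E F := i.toRingHom.toAlgebra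
  let _ : Algebra E ℂ := τ.toAlgebra
  have : IsScalarTower k E F := IsScalarTower.of_algebraMap_eq (fun x => (i.commutes x).symm)
  have : Algebra.IsAlgebraic E F := Algebra.IsAlgebraic.tower_top (K := k) E
  let τ' : F →ₐ[E] ℂ := IsAlgClosed.lift
  exact ⟨τ'.toRingHom, fun x => τ'.commutes x⟩

end

end Pool.Agent.W206.MS
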