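import Pool.Agent.W206.MS.Zeta
import Pool.Agent.W206.MS.Res

/-! The reduction theorem. -/

namespace Pool.Agent.W206.MS

section eps

variable {K : Type*} [Field K] {O O' : Subalgebra ℤ K} {m b : Submodule ℤ K} {σ : K →+* ℝ}
variable {L : Type*} [CommMonoid L]

/-- The product of the `ε(q)^{n(q,a)}` over all classes `q`. -/
noncomputable def EE (P : Pair O O' m b) [Fintype (QQ P.mB σ)] (e : Submodule ℤ K → L)
    (a : Submodule ℤ K) : L :=
  ∏ q : QQ P.mB σ, e (rep q) ^ nn O O' m σ (rep q) a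

theorem EE_congr (P : Pair O O' m b) [Fintype (QQ P.mB σ)] (e : Submodule ℤ K → L)
    {a c : Submodule ℤ K} (h : REq O m σ a c) : EE (σ := σ) P e a = EE (σ := σ) P e c := by
  unfold EE
  refine Finset.prod_congr rfl fun q _ => ?_
  rw [nn_congr_right P.mM _ h]

theorem EE_mul (P : Pair O O' m b) [Fintype (QQ P.mB σ)] (e : Submodule ℤ K → L)
    (he : ∀ I J, IsInv O' I → I ≤ OL O' → IsInv O' J → J ≤ OL O' → REq O' b σ I J → e I = e J)
    {a g : Submodule ℤ K} (ha : OL O * a = a) (hg : Good O b g) :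
    ∏ q : QQ P.mB σ, e (OL O' * g * rep q) ^ nn O O' m σ (rep q) a =
      EE (σ := σ) P e (g * a) := by
  unfold EE
  rw [← (mulQ_bijective (σ := σ) P.mB (P.good_ext hg)).prod_comp
    (fun q => e (rep q) ^ nn O O' m σ (rep q) (g * a))]
  refine Finset.prod_congr rfl fun q _ => ?_
  rw [P.nn_mulQ hg ha q]
  congr 1
  have hh : IsInv O' (OL O' * g * rep q) ∧ OL O' * g * rep q ≤ OL O' :=
    ⟨(P.good_ext hg).inv.mul (rep_inv q), by
      rw [Submodule.mul_le]
      exact fun x hx y hy => O'.mul_mem ((P.good_ext hg).le hx) (rep_le q hy)⟩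
  exact he _ _ hh.1 hh.2 (rep_inv _) (rep_le _) (rep_cls (σ := σ) (hb := P.mB) hh).symm

end eps

section main

variable {K : Type*} [Field K] [CharZero K] [Algebra K ℝ]

theorem mem_maxOrder_of_fg {O : Subalgebra ℤ K} (h : (OL O).FG) : O ≤ integralClosure ℤ K :=
  fun x hx => IsIntegral.of_mem_of_fg O h x hx

theorem isIntegral_real {x : K} (h : IsIntegral ℤ x) : IsIntegral ℤ (algebraMap K ℝ x) :=
  h.map ((algebraMap K ℝ).toIntAlgHom)

theorem mem_contr {I : Set ℝ} (hI : IsRealPrime I) {O : Subalgebra ℤ K} {x : K} :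
    x ∈ contr I O ↔ x ∈ O ∧ algebraMap K ℝ x ∈ I := by
  constructor
  · intro hx
    unfold contr at hx
    induction hx using Submodule.span_induction with
    | mem x hx => exact hx
    | zero => exact ⟨O.zero_mem, by rw [map_zero]; exact hI.2.1⟩
    | add x y _ _ hx hy =>
      exact ⟨O.add_mem hx.1 hy.1, by rw [map_add]; exact hI.2.2.1 _ hx.2 _ hy.2⟩
    | smul n x _ hx =>
      refine ⟨O.smul_mem hx.1 n, ?_⟩
      rw [zsmul_eq_mul, map_mul, map_intCast]
      exact hI.2.2.2.1 _ _ (isIntegral_algebraMap (R := ℤ) (A := ℝ) (x := n)) hx.2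
  · exact fun hx => Submodule.subset_span hx

theorem contr_ext {O O' : Subalgebra ℤ K} {m b : Submodule ℤ K} (P : Pair O O' m b)
    {I : Set ℝ} (hI : IsRealPrime I) (hO : O' ≤ integralClosure ℤ K) {e : K}
    (he : e ∈ contr I O) (h1 : 1 - e ∈ b) : OL O' * contr I O = contr I O' := by
  have hst : ∀ x ∈ O', ∀ y ∈ contr I O', x * y ∈ contr I O' := by
    intro x hx y hy
    rw [mem_contr hI] at hy ⊢
    refine ⟨O'.mul_mem hx hy.1, ?_⟩
    rw [map_mul]
    exact hI.2.2.2.1 _ _ (isIntegral_real (hO hx)) hy.2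
  have hle : ∀ x ∈ contr I O, x ∈ contr I O' := fun x hx => by
    rw [mem_contr hI] at hx ⊢
    exact ⟨P.le hx.1, hx.2⟩
  have he' := (mem_contr hI).1 he
  apply le_antisymm
  · rw [Submodule.mul_le]
    exact fun x hx y hy => hst x hx y (hle y hy)
  · intro z hz
    have hzO : z ∈ O' := ((mem_contr hI).1 hz).1
    have : z = z * e + 1 * (z * (1 - e)) := by ring
    rw [this]
    refine Submodule.add_mem _ (Submodule.mul_mem_mul hzO he)
      (Submodule.mul_mem_mul (one_mem_OL O') ?_)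
    have h2 : z * (1 - e) ∈ contr I O' := by
      rw [mul_comm]
      exact hst _ (O'.sub_mem O'.one_mem (P.le he'.1)) _ hz
    rw [mem_contr hI] at h2 ⊢
    exact ⟨P.b_le (P.mB.mul _ hzO _ h1), h2.2⟩

/-- The field generated by a square root, for a product. -/
theorem sqrt_prod_mem {ι : Type*} [Fintype ι] (M : IntermediateField K ℝ) (x : ι → ℝ) (n : ι → ℕ)
    (hx : ∀ i, 0 < x i) (hM : ∀ i, Real.sqrt (x i) ∈ M) :
    Real.sqrt (∏ i, x i ^ n i) ∈ M := by
  have : Real.sqrt (∏ i, x i ^ n i) = ∏ i, Real.sqrt (x i) ^ n i := by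
    rw [Real.sqrt_eq_iff_mul_self_eq (Finset.prod_nonneg fun i _ => pow_nonneg (hx i).le _)
      (Finset.prod_nonneg fun i _ => pow_nonneg (Real.sqrt_nonneg _) _),
      ← Finset.prod_mul_distrib]
    refine Finset.prod_congr rfl fun i _ => ?_
    rw [← mul_pow, Real.mul_self_sqrt (hx i).le]
  rw [this]
  exact M.prod_mem fun i _ => pow_mem (hM i) (n i)

theorem reduction (σ : K →+* ℝ) {O O' : Subalgebra ℤ K} {m : Submodule ℤ K}
    (P : Pair O O' m (m / OL O')) (h : MonoidStark σ O' (m / OL O')) : MonoidStark σ O m := by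
  classical
  have hO' : O' ≤ integralClosure ℤ K := mem_maxOrder_of_fg P.fg'
  obtain ⟨H', Art', ⟨⟨hfd, hab⟩, ⟨hmul, hsurj, hker⟩, hfrob⟩, ε', hε'⟩ := h
  have hA : Chr O' (m / OL O') σ Art' := ⟨hmul, hsurj, hker⟩
  have hfinG : Finite (H' ≃ₐ[K] H') := inferInstance
  have hfinQ : Finite (QQ P.mB σ) := P.finite_classes Art' hmul fun x hx h => (hker x hx).1 h
  have : Fintype (QQ P.mB σ) := Fintype.ofFinite _
  obtain ⟨H, hle, res, hHfd, hHab, hres, hresker, hresval, hfix⟩ := exists_res H' (gam P hA)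
  have hmon' : ∀ I, IsInv O' I → I ≤ OL O' → InMonoid O' (m / OL O') I := fun I h1 h2 =>
    inMonoid_of_le P.mB h1 h2
  have hcongr : ∀ I J, IsInv O' I → I ≤ OL O' → IsInv O' J → J ≤ OL O' →
      REq O' (m / OL O') σ I J → ε' I = ε' J := by
    intro I J hI hI' hJ hJ' hIJ
    have h1 := (hε' J (hmon' J hJ hJ')).1
    exact h1 I (hmon' I hI hI') ((rel_iff P.mB P.fin' (hmon' J hJ hJ')).2 hIJ)
  set E : Submodule ℤ K → H' := fun a => EE (σ := σ) P ε' a with hE
  have hEc : ∀ a c, REq O m σ a c → E a = E c := fun a c hac => EE_congr P ε' hac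
  -- action of the good ideals
  have hact : ∀ g a, Good O (m / OL O') g → OL O * a = a → Art' (OL O' * g) (E a) = E (g * a) := by
    intro g a hg ha
    have h1 := EE_mul (σ := σ) P ε' hcongr ha hg
    rw [hE]
    simp only
    rw [← h1]
    unfold EE
    rw [map_prod]
    refine Finset.prod_congr rfl fun q _ => ?_
    rw [map_pow]
    congr 1
    exact (hε' _ (hmon' _ (rep_inv q) (rep_le q))).2.2.2.1 _ ((P.good_ext hg).inJ P.mB)
  have hsm : ∀ a (α : K), InMonoid O m a → α - 1 ∈ Loc O m m → 0 < σ α → E (sm α a) = E a :=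
    fun a α ha h1 h2 => hEc _ _ (REq.sm_left P.mM h1 h2 ha.2)
  have hEH : ∀ a, InMonoid O m a → ((E a : H') : ℝ) ∈ H := by
    intro a ha
    apply hfix
    rintro τ ⟨α, h1, h2, h3, rfl⟩
    rw [hact _ a h1 ha.1.stable, sm_mul, ha.1.stable, hsm a α ha h2 h3]
  set ε : Submodule ℤ K → H := fun a => if h : ((E a : H') : ℝ) ∈ H then ⟨(E a : ℝ), h⟩ else 1
    with hε
  have hεv : ∀ a, InMonoid O m a → ((ε a : H) : ℝ) = ((E a : H') : ℝ) := by
    intro a ha
    simp only [hε]
    rw [dif_pos (hEH a ha)]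
  have hεE : ∀ a, InMonoid O m a → (⟨((ε a : H) : ℝ), hle (ε a).2⟩ : H') = E a := by
    intro a ha
    exact Subtype.ext (hεv a ha)
  have hpos : ∀ q : QQ P.mB σ, 0 < ((ε' (rep q) : H') : ℝ) := by
    intro q
    obtain ⟨F, hF, hFe⟩ := (hε' _ (hmon' _ (rep_inv q) (rep_le q))).2.2.1
    have h1 := hF.deriv_real
    have h2 : deriv F 0 = ((deriv F 0).re : ℂ) := by
      apply Complex.ext <;> simp [h1]
    rw [h2, ← Complex.ofReal_neg, ← Complex.ofReal_exp] at hFe
    rw [Complex.ofReal_injective hFe]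
    exact Real.exp_pos _
  have hEval : ∀ a, ((E a : H') : ℝ) =
      ∏ q : QQ P.mB σ, ((ε' (rep q) : H') : ℝ) ^ nn O O' m σ (rep q) a := by
    intro a
    simp only [hE, EE]
    push_cast
    rfl
  refine ⟨H, fun a => res (Art' (OL O' * rr O m (m / OL O') σ a)), ⟨⟨hHfd, hHab⟩, ⟨?_, ?_, ?_⟩,
    ?_⟩, ε, ?_⟩
  · intro x y hx hy
    rw [← map_mul, ← mul_inv_eq_one, ← map_inv, ← map_mul, hresker]
    exact hA.art_mul P hx hy
  · intro g
    obtain ⟨τ, rfl⟩ := hres g
    obtain ⟨x, hx, hx'⟩ := hA.art_surj P τ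
    exact ⟨x, hx, by simp only [hx']⟩
  · intro x hx
    rw [hresker]
    exact hA.art_ker P hx
  · intro I hI hcop x hx
    have hdiv : (m / OL O') / OL (integralClosure ℤ K) = m / OL (integralClosure ℤ K) := by
      ext z
      simp only [Submodule.mem_div_iff_forall_mul_mem]
      constructor
      · intro h1 y hy
        have := h1 y hy 1 (one_mem_OL O')
        simpa using this
      · intro h1 y hy w hw
        rw [mul_assoc]
        exact h1 _ ((integralClosure ℤ K).mul_mem hy (hO' hw))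
    have hfx := hfrob I hI (by rw [hdiv]; exact hcop) ⟨(x : ℝ), hle x.2⟩ hx
    refine Eq.mp ?_ hfx
    congr 2
    -- the contraction of `I` to `O` is prime to `b`
    have h1 : ∃ e ∈ contr I O, 1 - e ∈ m / OL O' := by
      have h2 : (1 : K) ∈ contr I (integralClosure ℤ K) ⊔ m / OL (integralClosure ℤ K) := by
        rw [hcop]; exact one_mem_OL _
      obtain ⟨e, he, z, hz, hez⟩ := Submodule.mem_sup.1 h2
      have hzb : z ∈ m / OL O' := by
        rw [Submodule.mem_div_iff_forall_mul_mem] at hz ⊢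
        exact fun y hy => hz y (hO' hy)
      have h3 : 1 - e = z := by rw [← hez]; ring
      refine ⟨e, (mem_contr hI).2 ⟨?_, ((mem_contr hI).1 he).2⟩, by rw [h3]; exact hzb⟩
      exact P.one_sub (by rw [h3]; exact hzb)
    obtain ⟨e, he, he'⟩ := h1
    have h4 : rr O m (m / OL O') σ (contr I O) = contr I O :=
      rr_of_le (fun x hx => ((mem_contr hI).1 hx).1) he he'
    simp only [h4, contr_ext P hI hO' he he']
    exact (hresval _ x).symm
  · intro a ha
    have hEa := hεv a ha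
    refine ⟨?_, ⟨?_, ?_⟩, ?_, ?_, ?_, ?_⟩
    · intro c hc hca
      have h1 : E c = E a := hEc _ _ ((rel_iff P.mM P.fin_m ha).1 hca)
      apply Subtype.ext
      rw [hεv c hc, hEa, h1]
    · rw [hEa, hEval a]
      refine IsIntegral.prod _ fun q _ => IsIntegral.pow ?_ _
      exact (hε' _ (hmon' _ (rep_inv q) (rep_le q))).2.1.1
    · rw [hEa, hEval a, ← Finset.prod_inv_distrib]
      refine IsIntegral.prod _ fun q _ => ?_
      rw [← inv_pow]
      exact IsIntegral.pow (hε' _ (hmon' _ (rep_inv q) (rep_le q))).2.1.2 _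
    · have hF : ∀ q : QQ P.mB σ, ∃ F, IsZ O' (m / OL O') σ (rep q) F ∧
          ((ε' (rep q) : ℝ) : ℂ) = Complex.exp (- deriv F 0) := fun q =>
        (hε' _ (hmon' _ (rep_inv q) (rep_le q))).2.2.1
      choose F hF1 hF2 using hF
      refine ⟨_, P.isZ ha F hF1, ?_⟩
      have hd : ∀ q, DifferentiableAt ℂ (F q) 0 := fun q =>
        (hF1 q).2.differentiableAt (isOpen_compl_singleton.mem_nhds (by norm_num))
      have h1 : deriv (fun s => ∑ q, (nn O O' m σ (rep q) a : ℂ) * F q s) 0 =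
          ∑ q, (nn O O' m σ (rep q) a : ℂ) * deriv (F q) 0 := by
        rw [deriv_fun_sum fun q _ => (hd q).const_mul _]
        exact Finset.sum_congr rfl fun q _ => deriv_const_mul _ (hd q)
      rw [h1, ← Finset.sum_neg_distrib, Complex.exp_sum, hEa, hEval a]
      push_cast
      refine Finset.prod_congr rfl fun q _ => ?_
      rw [hF2 q, ← Complex.exp_nat_mul]
      congr 1
      ring
    · intro c hc
      obtain ⟨α, a1, a2, a3, a4⟩ := P.rr_spec (σ := σ) hc
      have hca : InMonoid O m (c * a) := (hc.inMonoid P.mM).mul P.mM ha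
      apply Subtype.ext
      rw [hresval, hεE a ha, a4, hact _ a a3 ha.1.stable, sm_mul, hsm _ α hca a1 a2, hεv _ hca]
    · intro τ hτ
      obtain ⟨τ', h1⟩ := extend_hom (IntermediateField.inclusion hle) τ
      have h2 : ∀ x : K, τ' (algebraMap K H' x) = ((σ x : ℝ) : ℂ) := by
        intro x
        rw [← hτ x]
        exact h1 (algebraMap K H x)
      have h3 : τ (ε a) = τ' (E a) := by
        rw [← h1, ← hεE a ha]
        rfl
      rw [h3]
      simp only [hE, EE]
      rw [map_prod, norm_prod]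
      refine Finset.prod_eq_one fun q _ => ?_
      rw [map_pow, norm_pow]
      have h4 := (hε' _ (hmon' _ (rep_inv q) (rep_le q))).2.2.2.2.1 τ' h2
      rw [h4, one_pow]
    · have hq : ∀ q : QQ P.mB σ, IsAbelianGalois K (H' ⊔ IntermediateField.adjoin K
          {Real.sqrt (ε' (rep q) : ℝ)} : IntermediateField K ℝ) := fun q =>
        (hε' _ (hmon' _ (rep_inv q) (rep_le q))).2.2.2.2.2
      let M : IntermediateField K ℝ := ⨆ q : QQ P.mB σ, (H' ⊔ IntermediateField.adjoin K
          {Real.sqrt (ε' (rep q) : ℝ)} : IntermediateField K ℝ)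
      have hM : IsAbelianGalois K M := isAbelianGalois_iSup _ hq
      have hqM : ∀ q : QQ P.mB σ, (H' ⊔ IntermediateField.adjoin K
          {Real.sqrt (ε' (rep q) : ℝ)} : IntermediateField K ℝ) ≤ M := fun q =>
        le_iSup (fun q : QQ P.mB σ => (H' ⊔ IntermediateField.adjoin K
          {Real.sqrt (ε' (rep q) : ℝ)} : IntermediateField K ℝ)) q
      have hH'M : H' ≤ M := le_sup_left.trans (hqM (cls P.mB σ (OL O') ⟨isInv_OL O', le_rfl⟩))
      have hle2 : (H ⊔ IntermediateField.adjoin K {Real.sqrt (ε a : ℝ)} :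
          IntermediateField K ℝ) ≤ M := by
        refine sup_le (hle.trans hH'M) ?_
        rw [IntermediateField.adjoin_le_iff, Set.singleton_subset_iff, hEa, hEval a]
        refine sqrt_prod_mem M _ _ hpos fun q => hqM q ?_
        exact (le_sup_right : _ ≤ (H' ⊔ IntermediateField.adjoin K
          {Real.sqrt (ε' (rep q) : ℝ)} : IntermediateField K ℝ))
          (IntermediateField.mem_adjoin_simple_self K _)
      exact isAbelianGalois_le hle2

end main

end Pool.Agent.W206.MS
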