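import Pool.Agent.W206.MS.Approx

/-! Ideals of `O` and of a larger order `O'`, prime to an `O'`-ideal `b` contained in `O`. -/

namespace Pool.Agent.W206.MS

variable {K : Type*} [Field K]

/-- Two orders `O ⊆ O'`, an `O`-ideal `m` and an `O'`-ideal `b ⊆ m`. -/
structure Pair (O O' : Subalgebra ℤ K) (m b : Submodule ℤ K) : Prop where
  le : O ≤ O'
  fg : (OL O).FG
  fg' : (OL O').FG
  mM : Md O m
  mB : Md O' b
  bm : b ≤ m
  pos : ∃ N : ℕ, 0 < N ∧ (N : K) ∈ b
  full : ∀ x : K, ∃ n : ℤ, n ≠ 0 ∧ (n : K) * x ∈ O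

section pair

variable {O O' : Subalgebra ℤ K} {m b : Submodule ℤ K}

theorem Pair.b_le (P : Pair O O' m b) {x : K} (hx : x ∈ b) : x ∈ O := P.mM.le _ (P.bm hx)

theorem Pair.bO (P : Pair O O' m b) : ∀ x ∈ O, ∀ y ∈ b, x * y ∈ b :=
  fun x hx y hy => P.mB.mul x (P.le hx) y hy

theorem Pair.one_sub (P : Pair O O' m b) {e : K} (h : 1 - e ∈ b) : e ∈ O := by
  have := O.sub_mem O.one_mem (P.b_le h)
  simpa using this

theorem Pair.char [CharZero K] (P : Pair O O' m b) : ∃ n : ℤ, n ≠ 0 ∧ (n : K) ∈ b := by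
  obtain ⟨N, hN, h⟩ := P.pos
  exact ⟨N, by exact_mod_cast hN.ne', by exact_mod_cast h⟩

theorem Pair.fin' [CharZero K] (P : Pair O O' m b) :
    ∀ x ∈ O', ∃ k, 0 < k ∧ x ^ (2 * k) - x ^ k ∈ b := by
  obtain ⟨n, hn, hnb⟩ := P.char
  exact fun x hx => exists_idem P.mB.mul P.fg' hn hnb hx

theorem Pair.fin [CharZero K] (P : Pair O O' m b) :
    ∀ x ∈ O, ∃ k, 0 < k ∧ x ^ (2 * k) - x ^ k ∈ b := fun x hx => P.fin' x (P.le hx)

/-- `P` for the pair `(O', O')` with modulus `b`. -/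
theorem Pair.self (P : Pair O O' m b) : Pair O' O' b b where
  le := le_rfl
  fg := P.fg'
  fg' := P.fg'
  mM := P.mB
  mB := P.mB
  bm := le_rfl
  pos := P.pos
  full x := by
    obtain ⟨n, hn, h⟩ := P.full x
    exact ⟨n, hn, P.le h⟩

theorem Pair.inv_inf (P : Pair O O' m b) {J : Submodule ℤ K} (hJ : IsInv O' J)
    (hle : J ≤ OL O') {e : K} (he : e ∈ J) (h1 : 1 - e ∈ b) :
    IsInv O (J ⊓ OL O) ∧ OL O' * (J ⊓ OL O) = J ∧ e ∈ J ⊓ OL O := by
  have heO : e ∈ O := P.one_sub h1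
  have hej : e ∈ J ⊓ OL O := ⟨he, heO⟩
  have hst : ∀ x ∈ O, ∀ y ∈ J ⊓ OL O, x * y ∈ J ⊓ OL O := fun x hx y hy =>
    ⟨hJ.smul_mem (P.le hx) hy.1, O.mul_mem hx hy.2⟩
  refine ⟨⟨stable_iff.2 hst, OL O / (J ⊓ OL O), stable_iff.2 ?_, ?_⟩, ?_, hej⟩
  · intro x hx w hw
    rw [Submodule.mem_div_iff_forall_mul_mem] at hw ⊢
    intro y hy
    rw [mul_assoc]
    exact O.mul_mem hx (hw y hy)
  · apply le_antisymm
    · rw [Submodule.mul_le]
      intro y hy w hw
      rw [mul_comm]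
      exact Submodule.mem_div_iff_forall_mul_mem.1 hw y hy
    · have h2 : ∀ w ∈ O, w ∈ OL O / (J ⊓ OL O) := fun w hw => by
        rw [Submodule.mem_div_iff_forall_mul_mem]
        exact fun y hy => O.mul_mem hw hy.2
      obtain ⟨-, J', hJ', hJJ⟩ := id hJ
      have h3 : ∀ p ∈ J * J', (1 - e) ^ 2 * p ∈ (J ⊓ OL O) * (OL O / (J ⊓ OL O)) := by
        intro p hp
        induction hp using Submodule.mul_induction_on' with
        | mem_mul_mem x hx u hu =>
          have : (1 - e) ^ 2 * (x * u) = (x * (1 - e)) * (u * (1 - e)) := by ring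
          rw [this]
          refine Submodule.mul_mem_mul ⟨?_, ?_⟩ ?_
          · rw [mul_comm]; exact hJ.smul_mem (O'.sub_mem O'.one_mem (P.le heO)) hx
          · exact P.b_le (P.mB.mul _ (hle hx) _ h1)
          · rw [Submodule.mem_div_iff_forall_mul_mem]
            intro y hy
            have : u * (1 - e) * y = (y * u) * (1 - e) := by ring
            rw [this]
            refine P.b_le (P.mB.mul _ ?_ _ h1)
            have := Submodule.mul_mem_mul hy.1 hu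
            rw [hJJ] at this; exact this
        | add p hp q hq ihp ihq => rw [mul_add]; exact Submodule.add_mem _ ihp ihq
      have h4 : (1 : K) ∈ (J ⊓ OL O) * (OL O / (J ⊓ OL O)) := by
        have h5 := h3 1 (by rw [hJJ]; exact one_mem_OL O')
        have : (1 : K) = (1 - e) ^ 2 * 1 + e * (2 - e) := by ring
        rw [this]
        refine Submodule.add_mem _ h5 (Submodule.mul_mem_mul hej (h2 _ (O.sub_mem ?_ heO)))
        exact_mod_cast natCast_mem O 2
      intro x hx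
      have hst' : OL O * ((J ⊓ OL O) * (OL O / (J ⊓ OL O))) =
        (J ⊓ OL O) * (OL O / (J ⊓ OL O)) := stable_mul (stable_iff.2 hst) _
      have := stable_iff.1 hst' x hx 1 h4
      simpa using this
  · apply le_antisymm
    · rw [Submodule.mul_le]
      exact fun x hx y hy => hJ.smul_mem hx hy.1
    · intro z hz
      have : z = z * e + 1 * (z * (1 - e)) := by ring
      rw [this]
      refine Submodule.add_mem _ (Submodule.mul_mem_mul (hle hz) hej)
        (Submodule.mul_mem_mul (one_mem_OL O') ⟨?_, ?_⟩)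
      · rw [mul_comm]; exact hJ.smul_mem (O'.sub_mem O'.one_mem (P.le heO)) hz
      · exact P.b_le (P.mB.mul _ (hle hz) _ h1)

theorem Pair.ext_inf (P : Pair O O' m b) {j : Submodule ℤ K} (hj : OL O * j = j)
    (hle : j ≤ OL O) {e : K} (he : e ∈ j) (h1 : 1 - e ∈ b) : OL O' * j ⊓ OL O = j := by
  rw [stable_iff] at hj
  apply le_antisymm
  · rintro z ⟨hz, hzO⟩
    have : z = z * e + z * (1 - e) := by ring
    rw [this]
    refine j.add_mem (hj _ hzO _ he) ?_
    clear hzO this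
    change z ∈ OL O' * j at hz
    induction hz using Submodule.mul_induction_on' with
    | mem_mul_mem w hw y hy =>
      have : w * y * (1 - e) = (w * (1 - e)) * y := by ring
      rw [this]
      exact hj _ (P.b_le (P.mB.mul _ hw _ h1)) _ hy
    | add p hp q hq ihp ihq => rw [add_mul]; exact j.add_mem ihp ihq
  · exact le_inf (le_ext O' j) hle

/-- An integral ideal is recovered from its extension. -/
theorem Pair.ext_inj (P : Pair O O' m b) {i j : Submodule ℤ K} (hi : OL O * i = i)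
    (hile : i ≤ OL O) {e f : K} (he : e ∈ i) (h1 : 1 - e ∈ b) (hj : OL O * j = j)
    (hjle : j ≤ OL O) (hf : f ∈ j) (h2 : 1 - f ∈ b) (h : OL O' * i = OL O' * j) : i = j := by
  rw [← P.ext_inf hi hile he h1, ← P.ext_inf hj hjle hf h2, h]

/-- Every ideal of `J_m` is equivalent to an integral ideal prime to `b`. -/
theorem Pair.exists_rep [CharZero K] (P : Pair O O' m b) (σ : K →+* ℝ) {a : Submodule ℤ K}
    (ha : InJ O m a) :
    ∃ α : K, α - 1 ∈ Loc O m m ∧ 0 < σ α ∧ sm α a ≤ OL O ∧ ∃ e ∈ sm α a, 1 - e ∈ b := by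
  obtain ⟨hinv, a₁, a₂, h1, h2, hinv2, h3, h4, h5⟩ := ha
  obtain ⟨N, hN, hNb⟩ := P.pos
  obtain ⟨hst, d, hd, had⟩ := id hinv
  have e1 : ∃ x ∈ a₁, 1 - x ∈ m := by
    have : (1 : K) ∈ a₁ ⊔ m := by rw [h3]; exact one_mem_OL O
    obtain ⟨y, hy, z, hz, hyz⟩ := Submodule.mem_sup.1 this
    exact ⟨y, hy, by rw [← hyz]; simpa using hz⟩
  have e2 : ∃ x ∈ a₂, 1 - x ∈ m := by
    have : (1 : K) ∈ a₂ ⊔ m := by rw [h4]; exact one_mem_OL O
    obtain ⟨y, hy, z, hz, hyz⟩ := Submodule.mem_sup.1 this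
    exact ⟨y, hy, by rw [← hyz]; simpa using hz⟩
  obtain ⟨x₁, hx₁, hx₁'⟩ := e1
  obtain ⟨x₂, hx₂, hx₂'⟩ := e2
  have ha1a : a₁ ≤ a := by
    rw [← h5, Submodule.mul_le]
    intro x hx y hy
    rw [mul_comm]
    exact stable_iff.1 hst _ (h2 hy) _ hx
  have hx₂d : x₂ ∈ d := by
    have h6 : x₂ * 1 ∈ d := by
      have h7 : d * a₁ = a₂ := by
        rw [← h5, ← mul_assoc, mul_comm d a, had, hinv2.stable]
      have h8 : a₂ ≤ d := by
        rw [← h7]
        rw [Submodule.mul_le]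
        intro x hx y hy
        rw [mul_comm]
        exact stable_iff.1 hd _ (h1 hy) _ hx
      simpa using h8 hx₂
    simpa using h6
  have hO : ∀ γ ∈ d, ∀ u ∈ a₁, γ * u ∈ O := fun γ hγ u hu => by
    have h7 : d * a₁ = a₂ := by
      rw [← h5, ← mul_assoc, mul_comm d a, had, hinv2.stable]
    have := Submodule.mul_mem_mul hγ hu
    rw [h7] at this; exact h2 this
  have hdR : ∀ x ∈ d, x ∈ Loc O m (OL O) := by
    intro x hx
    exact ⟨x₁, cop_of_one_sub P.mM hx₁', by rw [mul_comm]; exact hO x hx x₁ hx₁⟩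
  have h12 : 1 - x₂ * x₁ ∈ m := by
    have : 1 - x₂ * x₁ = (1 - x₂) + x₂ * (1 - x₁) := by ring
    rw [this]
    exact m.add_mem hx₂' (P.mM.mul _ (h2 hx₂) _ hx₁')
  obtain ⟨α, hα, hσ, ⟨y, hy, hy'⟩, hαm⟩ := GA P.mM P.bm P.bO P.fin hN hNb σ hd hst
    (by rw [mul_comm]; exact had) hx₂d (h2 hx₂) (ha1a hx₁) h12
  refine ⟨α, ?_, hσ, ?_, α * y, mul_mem_sm hy, hy'⟩
  · have e : α - 1 = (α - x₂) - (1 - x₂) := by ring
    rw [e]
    refine loc_sub P.mM P.mM.mul ?_ (loc_of_mem P.mM hx₂')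
    have key : ∀ z ∈ m * d, z ∈ Loc O m m := by
      intro z hz
      induction hz using Submodule.mul_induction_on' with
      | mem_mul_mem μ hμ w hw =>
        rw [mul_comm]
        exact loc_mul P.mM P.mM.mul (hdR w hw) (loc_of_mem P.mM hμ)
      | add p hp q hq ihp ihq => exact loc_add P.mM P.mM.mul ihp ihq
    exact key _ hαm
  · rw [sm_le_iff]
    intro x hx
    have := Submodule.mul_mem_mul hx hα
    rw [had, mul_comm] at this
    exact this

end pair

section rel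

variable {O : Subalgebra ℤ K} {m : Submodule ℤ K} {σ : K →+* ℝ}

/-- Working form of the relation `Rel`. -/
def REq (O : Subalgebra ℤ K) (m : Submodule ℤ K) (σ : K →+* ℝ) (x y : Submodule ℤ K) : Prop :=
  ∃ κ : K, 0 < σ κ ∧ (∀ z ∈ y, (κ - 1) * z ∈ Loc O m m) ∧ x = sm κ y

theorem REq.refl (hm : Md O m) (x : Submodule ℤ K) : REq O m σ x x :=
  ⟨1, by simp, fun z _ => by simpa using loc_of_mem hm m.zero_mem, (one_sm x).symm⟩

theorem ne_zero_of_pos {κ : K} (h : 0 < σ κ) : κ ≠ 0 := by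
  rintro rfl; simp at h

theorem REq.symm {x y : Submodule ℤ K} (h : REq O m σ x y) : REq O m σ y x := by
  obtain ⟨κ, hκ, h1, rfl⟩ := h
  have h0 := ne_zero_of_pos hκ
  refine ⟨κ⁻¹, by rw [map_inv₀]; positivity, ?_, (sm_inv_sm h0 y).symm⟩
  intro z hz
  obtain ⟨w, hw, rfl⟩ := mem_sm.1 hz
  have : (κ⁻¹ - 1) * (κ * w) = -((κ - 1) * w) := by field_simp; ring
  rw [this]
  exact loc_neg (h1 w hw)

theorem REq.trans (hm : Md O m) {x y z : Submodule ℤ K} (h : REq O m σ x y)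
    (h' : REq O m σ y z) : REq O m σ x z := by
  obtain ⟨κ, hκ, h1, rfl⟩ := h
  obtain ⟨l, hl, h2, rfl⟩ := h'
  refine ⟨κ * l, by rw [map_mul]; positivity, ?_, sm_sm _ _ _⟩
  intro w hw
  have : (κ * l - 1) * w = (κ - 1) * (l * w) + (l - 1) * w := by ring
  rw [this]
  exact loc_add hm hm.mul (h1 _ (mul_mem_sm hw)) (h2 w hw)

/-- Multiplication by a lattice inside `R`. -/
theorem REq.mul_left (hm : Md O m) {x y : Submodule ℤ K} (c : Submodule ℤ K)
    (hc : (c : Set K) ⊆ Loc O m (OL O)) (h : REq O m σ x y) : REq O m σ (c * x) (c * y) := by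
  obtain ⟨κ, hκ, h1, rfl⟩ := h
  refine ⟨κ, hκ, ?_, mul_sm _ _ _⟩
  intro z hz
  induction hz using Submodule.mul_induction_on' with
  | mem_mul_mem u hu w hw =>
    have : (κ - 1) * (u * w) = u * ((κ - 1) * w) := by ring
    rw [this]
    exact loc_mul hm hm.mul (hc hu) (h1 w hw)
  | add p hp q hq ihp ihq => rw [mul_add]; exact loc_add hm hm.mul ihp ihq

/-- Cancellation of a lattice containing an element of `S_m`. -/
theorem REq.cancel (hm : Md O m) {g a : Submodule ℤ K} {κ e : K}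
    (hκ : 0 < σ κ) (he : e ∈ g) (hce : Cop O m e)
    (h : ∀ z ∈ g * a, (κ - 1) * z ∈ Loc O m m) : REq O m σ (sm κ a) a := by
  refine ⟨κ, hκ, ?_, rfl⟩
  intro z hz
  have h1 := h (e * z) (Submodule.mul_mem_mul he hz)
  apply loc_of_cop_mul hm hce
  have : e * ((κ - 1) * z) = (κ - 1) * (e * z) := by ring
  rw [this]; exact h1

/-- An element `≡ 1` modulo `m R` acts trivially. -/
theorem REq.sm_left (hm : Md O m) {κ : K} (h : κ - 1 ∈ Loc O m m) (hκ : 0 < σ κ)
    {a : Submodule ℤ K} (ha : (a : Set K) ⊆ Loc O m (OL O)) : REq O m σ (sm κ a) a := by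
  refine ⟨κ, hκ, ?_, rfl⟩
  intro z hz
  rw [mul_comm]
  exact loc_mul hm hm.mul (ha hz) h

theorem rel_iff (hm : Md O m) (hfin : ∀ x ∈ O, ∃ k, 0 < k ∧ x ^ (2 * k) - x ^ k ∈ m)
    {x y : Submodule ℤ K} (hy : InMonoid O m y) : Rel O m σ x y ↔ REq O m σ x y := by
  constructor
  · rintro ⟨c, hc, α, β, hα, hβ, rfl, rfl, hαβ, hs⟩
    have hβ0 : β ≠ 0 := by
      rintro rfl
      apply hy.1.ne_bot
      simp
    have hσβ : σ β ≠ 0 := by simpa using hβ0
    refine ⟨α * β⁻¹, ?_, ?_, ?_⟩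
    · rw [map_mul, map_inv₀]
      rcases lt_trichotomy (σ β) 0 with h | h | h
      · rw [sign_neg h, sign_eq_neg_one_iff] at hs
        exact mul_pos_of_neg_of_neg hs (inv_lt_zero.2 h)
      · exact absurd h hσβ
      · rw [sign_pos h, sign_eq_one_iff] at hs
        exact mul_pos hs (inv_pos.2 h)
    · intro z hz
      obtain ⟨w, hw, rfl⟩ := mem_sm.1 hz
      have : (α * β⁻¹ - 1) * (β * w) = w * (α - β) := by field_simp
      rw [this]
      exact loc_mul hm hm.mul (hc.2 hw) hαβ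
    · rw [sm_sm, mul_assoc, inv_mul_cancel₀ hβ0, mul_one]
  · rintro ⟨κ, hκ, h1, rfl⟩
    obtain ⟨hst, y', hy', hyy⟩ := id hy.1
    obtain ⟨γ, hγ, u, hu, hγu⟩ := LP hm.mul hfin hst hy' hyy
    have hcop : Cop O m (γ * u) := cop_of_one_sub hm hγu
    have hγ0 : γ ≠ 0 := fun h => hcop.ne_zero hm (by simp [h])
    refine ⟨sm γ⁻¹ y, ⟨hy.1.sm (inv_ne_zero hγ0), ?_⟩, κ * γ, γ, ?_, hy.2 hγ, ?_, ?_, ?_, ?_⟩
    · intro z hz
      obtain ⟨w, hw, rfl⟩ := mem_sm.1 hz
      refine ⟨γ * u, hcop, ?_⟩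
      have : γ * u * (γ⁻¹ * w) = w * u := by field_simp
      rw [this, ← hyy]
      exact Submodule.mul_mem_mul hw hu
    · have : κ * γ = (κ - 1) * γ + γ := by ring
      rw [this]
      exact loc_add hm OL_stable (loc_m_le hm (h1 γ hγ)) (hy.2 hγ)
    · change sm κ y = sm (κ * γ) (sm γ⁻¹ y)
      rw [sm_sm, mul_assoc, mul_inv_cancel₀ hγ0, mul_one]
    · exact (sm_sm_inv hγ0 y).symm
    · have : κ * γ - γ = (κ - 1) * γ := by ring
      rw [this]; exact h1 γ hγ
    · rw [map_mul]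
      have : SignType.sign (σ κ) = 1 := sign_pos hκ
      rw [sign_mul, this, one_mul]

end rel

end Pool.Agent.W206.MS
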