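import Pool.Agent.W206.MS.Artin

/-! Zeta functions. -/

namespace Pool.Agent.W206.MS

open Complex

variable {K : Type*} [Field K] {O O' : Subalgebra ℤ K} {m b : Submodule ℤ K} {σ : K →+* ℝ}

theorem CS_congr (hm : Md O m) {a c : Submodule ℤ K}
    (h : REq O m σ a c) (n : ℕ) : CS O m σ a n = CS O m σ c n := by
  ext x
  constructor
  · rintro ⟨h1, h2, h3, h4⟩
    exact ⟨h1, h2, h3.trans hm h, h4⟩
  · rintro ⟨h1, h2, h3, h4⟩
    exact ⟨h1, h2, h3.trans hm h.symm, h4⟩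

theorem inMonoid_of_le (hm : Md O m) {a : Submodule ℤ K} (ha : IsInv O a) (hle : a ≤ OL O) :
    InMonoid O m a := ⟨ha, fun _ hx => loc_of_mem hm (hle hx)⟩

theorem InMonoid.mul (hm : Md O m) {a c : Submodule ℤ K} (ha : InMonoid O m a)
    (hc : InMonoid O m c) : InMonoid O m (a * c) := by
  refine ⟨ha.1.mul hc.1, ?_⟩
  intro z hz
  change z ∈ a * c at hz
  induction hz using Submodule.mul_induction_on' with
  | mem_mul_mem x hx y hy => exact loc_mul hm OL_stable (ha.2 hx) (hc.2 hy)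
  | add p hp q hq ihp ihq => exact loc_add hm OL_stable ihp ihq

theorem InJ.subset_loc (hm : Md O m) {a : Submodule ℤ K} (ha : InJ O m a) :
    (a : Set K) ⊆ Loc O m (OL O) := by
  obtain ⟨-, a₁, a₂, h1, h2, h3, h4, h5, h6⟩ := ha
  obtain ⟨e, he, he'⟩ := mem_of_sup_eq h5
  intro z hz
  refine ⟨e, cop_of_one_sub hm he', h1 ?_⟩
  rw [← h6, mul_comm e z]
  exact Submodule.mul_mem_mul hz he

theorem InJ.inMonoid (hm : Md O m) {a : Submodule ℤ K} (ha : InJ O m a) : InMonoid O m a :=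
  ⟨ha.1, ha.subset_loc hm⟩

theorem Pair.fin_m [CharZero K] (P : Pair O O' m b) :
    ∀ x ∈ O, ∃ k, 0 < k ∧ x ^ (2 * k) - x ^ k ∈ m := fun x hx => by
  obtain ⟨k, h1, h2⟩ := P.fin x hx
  exact ⟨k, h1, P.bm h2⟩

/-- A positive integer `ρ ≡ -1` modulo `b`. -/
theorem Pair.exists_rho (P : Pair O O' m b) (σ : K →+* ℝ) :
    ∃ ρ : K, ρ + 1 ∈ b ∧ 0 < σ ρ ∧ ρ ∈ O := by
  obtain ⟨N, hN, h⟩ := P.pos
  refine ⟨2 * N - 1, ?_, ?_, ?_⟩
  · have : (2 * N - 1 + 1 : K) = 2 * N := by ring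
    rw [this]
    exact P.bO 2 (by exact_mod_cast natCast_mem O 2) _ h
  · rw [map_sub, map_mul, map_natCast, map_one, map_ofNat]
    have : (1 : ℝ) ≤ N := by exact_mod_cast hN
    linarith
  · refine O.sub_mem (O.mul_mem ?_ (natCast_mem O _)) O.one_mem
    exact_mod_cast natCast_mem O 2

theorem good_rho (hb : ∀ x ∈ O, ∀ y ∈ b, x * y ∈ b) {ρ : K} (h1 : ρ + 1 ∈ b) (h2 : 0 < σ ρ)
    (h3 : ρ ∈ O) : Good O b (sm ρ (OL O)) := by
  refine ⟨(isInv_OL O).sm (ne_zero_of_pos h2), ?_, ρ * ρ, mul_mem_sm h3, ?_⟩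
  · rw [sm_le_iff]; exact fun x hx => O.mul_mem h3 hx
  · have : 1 - ρ * ρ = (1 - ρ) * (ρ + 1) := by ring
    rw [this]
    exact hb _ (O.sub_mem O.one_mem h3) _ h1

theorem Pair.count_rho [CharZero K] (P : Pair O O' m b) [Fintype (QQ P.mB σ)]
    {a : Submodule ℤ K} (ha : OL O * a = a) {ρ : K} (h1 : ρ + 1 ∈ b) (h2 : 0 < σ ρ) (h3 : ρ ∈ O)
    {n : ℕ} (hn : n ≠ 0) :
    (CS O m σ (sm ρ a) n).ncard = ∑ q : QQ P.mB σ, nn O O' m σ (rep q) a *
      (CS O' b σ (sm ρ (rep q)) n).ncard := by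
  have hg : Good O b (sm ρ (OL O)) := good_rho P.bO h1 h2 h3
  have e1 : sm ρ (OL O) * a = sm ρ a := by rw [sm_mul, ha]
  rw [P.count _ hn, ← (mulQ_bijective (σ := σ) P.mB (P.good_ext hg)).sum_comp]
  refine Finset.sum_congr rfl fun q _ => ?_
  rw [P.nn_mulQ hg ha q, e1]
  congr 2
  apply CS_congr P.mB
  have hh : IsInv O' (OL O' * sm ρ (OL O) * rep q) ∧ OL O' * sm ρ (OL O) * rep q ≤ OL O' :=
    ⟨(P.good_ext hg).inv.mul (rep_inv q), by
      rw [Submodule.mul_le]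
      exact fun x hx y hy => O'.mul_mem ((P.good_ext hg).le hx) (rep_le q hy)⟩
  have h := rep_cls (σ := σ) (hb := P.mB) hh
  have e2 : OL O' * sm ρ (OL O) * rep q = sm ρ (rep q) := by
    rw [mul_sm, sm_mul, mul_assoc]
    congr 1
    have h4 : OL O * rep q = rep q := by
      rw [stable_iff]; exact fun x hx y hy => (rep_inv q).smul_mem (P.le hx) hy
    rw [h4, (rep_inv q).stable]
  exact Eq.mp (congrArg (REq O' b σ (rep (mulQ P.mB σ (P.good_ext hg) q))) e2) h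

theorem REq_rho (hm : Md O m) {ρ ρ' : K} (h1 : ρ + 1 ∈ m) (h2 : 0 < σ ρ) (h1' : ρ' + 1 ∈ m)
    (h2' : 0 < σ ρ') {I : Submodule ℤ K} (hI : I ≤ OL O) : REq O m σ (sm ρ I) (sm ρ' I) := by
  have h0 := ne_zero_of_pos h2'
  refine ⟨ρ * ρ'⁻¹, by rw [map_mul, map_inv₀]; positivity, ?_, ?_⟩
  · intro z hz
    obtain ⟨w, hw, rfl⟩ := mem_sm.1 hz
    have : (ρ * ρ'⁻¹ - 1) * (ρ' * w) = w * ((ρ + 1) - (ρ' + 1)) := by
      field_simp
      ring
    rw [this]
    exact loc_of_mem hm (hm.mul _ (hI hw) _ (m.sub_mem h1 h1'))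
  · rw [sm_sm, mul_assoc, inv_mul_cancel₀ h0, mul_one]

theorem Pair.isZ [CharZero K] (P : Pair O O' m b) [Fintype (QQ P.mB σ)]
    {a : Submodule ℤ K} (ha : InMonoid O m a) (F : QQ P.mB σ → ℂ → ℂ)
    (hF : ∀ q, IsZ O' b σ (rep q) (F q)) :
    IsZ O m σ a (fun s => ∑ q, (nn O O' m σ (rep q) a : ℂ) * F q s) := by
  obtain ⟨ρ, h1, h2, h3⟩ := P.exists_rho σ
  refine ⟨⟨ρ, h3, P.bm h1, h2, ?_⟩, ?_⟩
  · intro s hs
    have hρa : InMonoid O m (sm ρ a) := by
      have : sm ρ a = sm ρ (OL O) * a := by rw [sm_mul, ha.1.stable]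
      rw [this]
      have hg := good_rho P.bO h1 h2 h3
      exact (inMonoid_of_le P.mM hg.inv hg.le).mul P.mM ha
    have hsum : HasSum (fun n => ∑ q : QQ P.mB σ, (nn O O' m σ (rep q) a : ℂ) *
        LSeries.term (fun n => (cnt O' b σ (rep q) n : ℂ) - (cnt O' b σ (sm ρ (rep q)) n : ℂ)) s n)
        (∑ q : QQ P.mB σ, (nn O O' m σ (rep q) a : ℂ) * F q s) := by
      refine hasSum_sum fun q _ => ?_
      obtain ⟨⟨ρ', k1, k2, k3, k4⟩, -⟩ := hF q
      have h5 := (k4 s hs)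
      have e : ∀ n, cnt O' b σ (Submodule.span ℤ {ρ'} * rep q) n = cnt O' b σ (sm ρ (rep q)) n := by
        intro n
        have hr : IsInv O' (rep q) := rep_inv q
        rw [cnt_eq P.mB P.fin' (inMonoid_of_le P.mB (hr.sm (ne_zero_of_pos k3)) ?_),
          cnt_eq P.mB P.fin' (inMonoid_of_le P.mB (hr.sm (ne_zero_of_pos h2)) ?_)]
        · rw [CS_congr P.mB (REq_rho P.mB k2 k3 h1 h2 (rep_le q))]
        · rw [sm_le_iff]; exact fun x hx => O'.mul_mem (P.le h3) (rep_le q hx)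
        · rw [sm_le_iff]; exact fun x hx => O'.mul_mem k1 (rep_le q hx)
      simp only [e] at h5
      exact HasSum.mul_left _ h5
    unfold LSeriesHasSum
    convert hsum using 1
    ext n
    rcases Nat.eq_zero_or_pos n with rfl | hn
    · simp
    · have hn' := hn.ne'
      simp only [LSeries.term_of_ne_zero hn']
      have c1 : (cnt O m σ a n : ℂ) = ∑ q : QQ P.mB σ, (nn O O' m σ (rep q) a : ℂ) *
          (cnt O' b σ (rep q) n : ℂ) := by
        rw [cnt_eq P.mM P.fin_m ha, P.count a hn']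
        push_cast
        refine Finset.sum_congr rfl fun q _ => ?_
        rw [cnt_eq P.mB P.fin' (inMonoid_of_le P.mB (rep_inv q) (rep_le q))]
      have c2 : (cnt O m σ (Submodule.span ℤ {ρ} * a) n : ℂ) =
          ∑ q : QQ P.mB σ, (nn O O' m σ (rep q) a : ℂ) * (cnt O' b σ (sm ρ (rep q)) n : ℂ) := by
        have := P.count_rho ha.1.stable h1 h2 h3 hn'
        rw [cnt_eq P.mM P.fin_m hρa, this]
        push_cast
        refine Finset.sum_congr rfl fun q _ => ?_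
        rw [cnt_eq P.mB P.fin' (inMonoid_of_le P.mB ((rep_inv q).sm (ne_zero_of_pos h2)) ?_)]
        rw [sm_le_iff]; exact fun x hx => O'.mul_mem (P.le h3) (rep_le q hx)
      rw [c1, c2, ← Finset.sum_sub_distrib, Finset.sum_div]
      refine Finset.sum_congr rfl fun q _ => ?_
      ring
  · refine DifferentiableOn.fun_sum fun q _ => ?_
    exact (hF q).2.const_mul _

/-- The derivative of a differenced zeta function at `0` is real. -/
theorem IsZ.deriv_real {a : Submodule ℤ K} {F : ℂ → ℂ} (h : IsZ O m σ a F) :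
    (deriv F 0).im = 0 := by
  obtain ⟨⟨ρ, -, -, -, hs⟩, hd⟩ := h
  have h1 : ∀ z : ℂ, 1 < z.re → (starRingEnd ℂ) (F ((starRingEnd ℂ) z)) = F z := by
    intro z hz
    have h2 := hs ((starRingEnd ℂ) z) (by simpa using hz)
    have h3 := h2.map (starRingEnd ℂ) continuous_conj
    refine HasSum.unique h3 ?_
    have h4 := hs z hz
    unfold LSeriesHasSum at h4
    convert h4 using 1
    ext n
    rcases Nat.eq_zero_or_pos n with rfl | hn
    · simp
    · simp only [Function.comp_apply, LSeries.term_of_ne_zero hn.ne', map_div₀, map_sub,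
        map_natCast]
      rw [← conj_cpow _ _ (by rw [natCast_arg]; positivity), conj_natCast]
  have han : AnalyticOnNhd ℂ F {1}ᶜ := hd.analyticOnNhd isOpen_compl_singleton
  have hcan : AnalyticOnNhd ℂ ((starRingEnd ℂ) ∘ F ∘ (starRingEnd ℂ)) {1}ᶜ := by
    refine DifferentiableOn.analyticOnNhd (fun z hz => ?_) isOpen_compl_singleton
    refine (differentiableAt_conj_conj_iff.mpr ?_).differentiableWithinAt
    refine hd.differentiableAt (isOpen_compl_singleton.mem_nhds ?_)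
    exact (map_ne_one_iff _ (starRingEnd ℂ).injective).mpr hz
  have heq : Set.EqOn ((starRingEnd ℂ) ∘ F ∘ (starRingEnd ℂ)) F {1}ᶜ :=
    hcan.eqOn_of_preconnected_of_eventuallyEq han
      (isConnected_compl_singleton_of_one_lt_rank (by simp) 1).isPreconnected
      (by norm_num : (2 : ℂ) ∈ _)
      (Filter.eventuallyEq_of_mem
        ((isOpen_lt continuous_const continuous_re).mem_nhds (by norm_num)) h1)
  have h0 : ((starRingEnd ℂ) ∘ F ∘ (starRingEnd ℂ)) =ᶠ[nhds 0] F :=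
    Filter.eventuallyEq_of_mem (isOpen_compl_singleton.mem_nhds (by norm_num)) heq
  have h5 := h0.deriv_eq
  rw [deriv_conj_conj] at h5
  simp only [Function.comp_apply, map_zero] at h5
  exact conj_eq_iff_im.1 h5

end Pool.Agent.W206.MS
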